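import Mathlib

/-!
# The Fourier-Stieltjes algebra of a discrete group and its weak* topology

For a discrete group `G` we define the full group C*-norm on finitely supported functions,
the Banach space underlying the full group C*-algebra `C*(G)` (its completion), the
Fourier-Stieltjes algebra `B(G) = C*(G)^*` as a set of functions on `G`, and weak*-closedness.
-/

open scoped ComplexConjugate

namespace Pool.Agent.Lib.MP_f0f681_an

universe u

/-- A unitary representation of the discrete group `G` on the (Hilbert) space `H`: a homomorphism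
from `G` to the group of surjective linear isometries of `H`. -/
abbrev UnitaryRep (G : Type u) [Group G] (H : Type u) [NormedAddCommGroup H]
    [InnerProductSpace ℂ H] : Type u :=
  G →* (H ≃ₗᵢ[ℂ] H)

/-- The operator `π(g)`. -/
noncomputable def UnitaryRep.op {G : Type u} [Group G] {H : Type u} [NormedAddCommGroup H]
    [InnerProductSpace ℂ H] (π : UnitaryRep G H) (g : G) : H →L[ℂ] H :=
  ((π g).toContinuousLinearEquiv : H →L[ℂ] H)

/-- The integrated form of a unitary representation `π` of the discrete group `G`: a finitely
supported function `f` is sent to the operator `∑ f(g) π(g)`. -/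
noncomputable def UnitaryRep.integrated {G : Type u} [Group G] {H : Type u} [NormedAddCommGroup H]
    [InnerProductSpace ℂ H] (π : UnitaryRep G H) (f : G →₀ ℂ) : H →L[ℂ] H :=
  f.sum fun g c => c • UnitaryRep.op π g

section norm

variable {G : Type u} [Group G]

/-- The set of all operator norms `‖π(f)‖`, where `π` runs over all unitary representations of `G`
on Hilbert spaces. -/
def repNorms (f : G →₀ ℂ) : Set ℝ :=
  {r : ℝ | ∃ (H : Type u) (_ : NormedAddCommGroup H) (_ : InnerProductSpace ℂ H)
    (_ : CompleteSpace H) (π : UnitaryRep G H), r = ‖UnitaryRep.integrated π f‖}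

/-- The full (maximal) C*-norm of a finitely supported function on the discrete group `G`:
the supremum of `‖π(f)‖` over all unitary representations `π` of `G`. -/
noncomputable def fullNorm (f : G →₀ ℂ) : ℝ := sSup (repNorms f)

section
variable {H : Type u} [NormedAddCommGroup H] [InnerProductSpace ℂ H]

theorem norm_op_le_one (π : UnitaryRep G H) (g : G) : ‖UnitaryRep.op π g‖ ≤ 1 :=
  ContinuousLinearMap.opNorm_le_bound _ zero_le_one fun x => by
    rw [one_mul]
    exact ((π g).norm_map x).le

theorem norm_repIntegrated_le_sum (π : UnitaryRep G H) (f : G →₀ ℂ) :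
    ‖UnitaryRep.integrated π f‖ ≤ f.sum fun _ c => ‖c‖ := by
  unfold UnitaryRep.integrated Finsupp.sum
  refine (norm_sum_le _ _).trans (Finset.sum_le_sum fun g _ => ?_)
  rw [norm_smul]
  calc ‖f g‖ * ‖UnitaryRep.op π g‖ ≤ ‖f g‖ * 1 := by
        gcongr; exact norm_op_le_one _ _
    _ = ‖f g‖ := mul_one _

theorem repIntegrated_zero (π : UnitaryRep G H) : UnitaryRep.integrated π 0 = 0 := by
  simp [UnitaryRep.integrated]

theorem repIntegrated_add (π : UnitaryRep G H) (f g : G →₀ ℂ) :
    UnitaryRep.integrated π (f + g) =
      UnitaryRep.integrated π f + UnitaryRep.integrated π g := by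
  unfold UnitaryRep.integrated
  rw [Finsupp.sum_add_index']
  · intro a; simp
  · intro a b c; rw [add_smul]

theorem repIntegrated_smul (π : UnitaryRep G H) (c : ℂ) (f : G →₀ ℂ) :
    UnitaryRep.integrated π (c • f) = c • UnitaryRep.integrated π f := by
  unfold UnitaryRep.integrated
  rw [Finsupp.sum_smul_index', Finsupp.smul_sum]
  · simp only [smul_smul, smul_eq_mul]
  · intro a; simp

end

theorem repNorms_bddAbove (f : G →₀ ℂ) : BddAbove (repNorms f) := by
  refine ⟨f.sum fun _ c => ‖c‖, ?_⟩
  rintro r ⟨H, _, _, _, π, rfl⟩
  exact norm_repIntegrated_le_sum π f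

theorem norm_repIntegrated_le_fullNorm {H : Type u} [NormedAddCommGroup H]
    [InnerProductSpace ℂ H] [CompleteSpace H] (π : UnitaryRep G H) (f : G →₀ ℂ) :
    ‖UnitaryRep.integrated π f‖ ≤ fullNorm f :=
  le_csSup (repNorms_bddAbove f) ⟨H, _, _, ‹_›, π, rfl⟩

theorem fullNorm_nonneg (f : G →₀ ℂ) : 0 ≤ fullNorm f := by
  apply Real.sSup_nonneg
  rintro r ⟨H, _, _, _, π, rfl⟩
  exact norm_nonneg _

theorem fullNorm_le_of_rep {f : G →₀ ℂ} {C : ℝ} (hC : 0 ≤ C)
    (h : ∀ (H : Type u) (_ : NormedAddCommGroup H) (_ : InnerProductSpace ℂ H)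
    (_ : CompleteSpace H) (π : UnitaryRep G H), ‖UnitaryRep.integrated π f‖ ≤ C) :
    fullNorm f ≤ C := by
  apply Real.sSup_le _ hC
  rintro r ⟨H, i1, i2, i3, π, rfl⟩
  exact h H i1 i2 i3 π

/-- The full C*-norm, as a seminorm on the finitely supported functions. -/
noncomputable def fullSeminorm (G : Type u) [Group G] : Seminorm ℂ (G →₀ ℂ) :=
  Seminorm.ofSMulLE fullNorm
    (le_antisymm (fullNorm_le_of_rep le_rfl fun H _ _ _ π => by simp [repIntegrated_zero])
      (fullNorm_nonneg _))
    (fun f g => fullNorm_le_of_rep (add_nonneg (fullNorm_nonneg _) (fullNorm_nonneg _))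
      fun H _ _ _ π => by
        rw [repIntegrated_add]
        exact (norm_add_le _ _).trans
          (add_le_add (norm_repIntegrated_le_fullNorm π f) (norm_repIntegrated_le_fullNorm π g)))
    (fun c f => fullNorm_le_of_rep (mul_nonneg (norm_nonneg _) (fullNorm_nonneg _))
      fun H _ _ _ π => by
        rw [repIntegrated_smul, norm_smul]
        exact mul_le_mul_of_nonneg_left (norm_repIntegrated_le_fullNorm π f) (norm_nonneg _))

end norm

/-- The group algebra of `G` (finitely supported functions on `G`), to be equipped with the full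
C*-norm. -/
def GroupAlg (G : Type u) : Type u := G →₀ ℂ

section
variable (G : Type u)

noncomputable instance : AddCommGroup (GroupAlg G) :=
  (Finsupp.instAddCommGroup : AddCommGroup (G →₀ ℂ))

noncomputable instance : Module ℂ (GroupAlg G) := (Finsupp.module G ℂ : Module ℂ (G →₀ ℂ))

variable [Group G]

noncomputable instance : SeminormedAddCommGroup (GroupAlg G) :=
  AddGroupSeminorm.toSeminormedAddCommGroup (fullSeminorm G).toAddGroupSeminorm

noncomputable instance : NormedSpace ℂ (GroupAlg G) where
  norm_smul_le c f := ((fullSeminorm G).smul' c f).le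

theorem norm_groupAlg_def (f : GroupAlg G) : ‖f‖ = fullNorm (G := G) f := rfl

/-- The Banach space underlying the full group C*-algebra `C*(G)` of the discrete group `G`:
the completion of the group algebra in the full C*-norm. -/
abbrev FullCStar (G : Type u) [Group G] : Type u := UniformSpace.Completion (GroupAlg G)

end

/-- A finitely supported function on `G`, as an element of the group algebra. -/
noncomputable def toGroupAlg {G : Type u} : (G →₀ ℂ) ≃ₗ[ℂ] GroupAlg G :=
  LinearEquiv.refl ℂ (G →₀ ℂ)

section
variable {G : Type u} [Group G]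

/-- The group element `g`, as an element of `C*(G)`. -/
noncomputable def delta (g : G) : FullCStar G :=
  (toGroupAlg (Finsupp.single g (1 : ℂ)) : FullCStar G)

/-- A bounded functional on `C*(G)`, regarded as a function on `G`. -/
noncomputable def toFunction (φ : WeakDual ℂ (FullCStar G)) : G → ℂ := fun g => φ (delta g)

/-- The Fourier-Stieltjes algebra `B(G) = C*(G)^*` of the discrete group `G`, as a set of functions
on `G`: the functions `g ↦ φ(g)`, where `φ` is a bounded functional on `C*(G)`. -/
def FourierStieltjes (G : Type u) [Group G] : Set (G → ℂ) :=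
  Set.range (toFunction (G := G))

/-- A set of functions in `B(G)` is weak*-closed if the corresponding set of functionals on
`C*(G)` is closed in the weak* topology of `C*(G)^* = B(G)`. -/
def IsWeakStarClosed (B : Set (G → ℂ)) : Prop :=
  IsClosed {φ : WeakDual ℂ (FullCStar G) | toFunction φ ∈ B}

/-- Invariance under left and right translations. -/
def IsTranslationInvariant (B : Set (G → ℂ)) : Prop :=
  ∀ f ∈ B, ∀ s : G, (fun x => f (s * x)) ∈ B ∧ (fun x => f (x * s)) ∈ B

end

end Pool.Agent.Lib.MP_f0f681_an
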