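import Mathlib
import Pool.Agent.Lib.MP_f0f681_an.Defs

/-! Unitary representations as homomorphisms into the unitary group of `B(H)`. -/

open scoped ComplexConjugate

namespace Pool.Agent.Lib.MP_f0f681_an

universe u

variable {G : Type u} [Group G]

/-- The integrated form of a homomorphism into the unitary group. -/
noncomputable def integrated {H : Type u} [NormedAddCommGroup H] [InnerProductSpace ℂ H]
    [CompleteSpace H] (π : G →* unitary (H →L[ℂ] H)) (f : G →₀ ℂ) : H →L[ℂ] H :=
  f.sum fun g c => c • (π g : H →L[ℂ] H)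

section
variable {H : Type u} [NormedAddCommGroup H] [InnerProductSpace ℂ H] [CompleteSpace H]

theorem norm_unitary_le_one (U : unitary (H →L[ℂ] H)) : ‖(U : H →L[ℂ] H)‖ ≤ 1 :=
  ContinuousLinearMap.opNorm_le_bound _ zero_le_one fun x => by
    rw [Unitary.norm_map, one_mul]

theorem integrated_zero (π : G →* unitary (H →L[ℂ] H)) : integrated π 0 = 0 := by
  simp [integrated]

theorem integrated_add (π : G →* unitary (H →L[ℂ] H)) (f g : G →₀ ℂ) :
    integrated π (f + g) = integrated π f + integrated π g := by
  unfold integrated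
  rw [Finsupp.sum_add_index']
  · intro a; simp
  · intro a b c; rw [add_smul]

theorem integrated_smul (π : G →* unitary (H →L[ℂ] H)) (c : ℂ) (f : G →₀ ℂ) :
    integrated π (c • f) = c • integrated π f := by
  unfold integrated
  rw [Finsupp.sum_smul_index', Finsupp.smul_sum]
  · simp only [smul_smul, smul_eq_mul]
  · intro a; simp

theorem integrated_single (π : G →* unitary (H →L[ℂ] H)) (g : G) (c : ℂ) :
    integrated π (Finsupp.single g c) = c • (π g : H →L[ℂ] H) := by
  unfold integrated
  rw [Finsupp.sum_single_index]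
  simp

/-- Conversion of a homomorphism to the unitary group into a unitary representation. -/
noncomputable def toRep (π : G →* unitary (H →L[ℂ] H)) : UnitaryRep G H :=
  (Unitary.linearIsometryEquiv (𝕜 := ℂ) (H := H)).toMonoidHom.comp π

theorem repIntegrated_toRep (π : G →* unitary (H →L[ℂ] H)) (f : G →₀ ℂ) :
    UnitaryRep.integrated (toRep π) f = integrated π f := rfl

/-- Conversion of a unitary representation into a homomorphism to the unitary group. -/
noncomputable def ofRep (π : UnitaryRep G H) : G →* unitary (H →L[ℂ] H) :=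
  (Unitary.linearIsometryEquiv (𝕜 := ℂ) (H := H)).symm.toMonoidHom.comp π

theorem integrated_ofRep (π : UnitaryRep G H) (f : G →₀ ℂ) :
    integrated (ofRep π) f = UnitaryRep.integrated π f := rfl

end

theorem norm_integrated_le_fullNorm {H : Type u} [NormedAddCommGroup H] [InnerProductSpace ℂ H]
    [CompleteSpace H] (π : G →* unitary (H →L[ℂ] H)) (f : G →₀ ℂ) :
    ‖integrated π f‖ ≤ fullNorm f := by
  rw [← repIntegrated_toRep]
  exact norm_repIntegrated_le_fullNorm _ _

theorem fullNorm_le {f : G →₀ ℂ} {C : ℝ} (hC : 0 ≤ C)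
    (h : ∀ (H : Type u) (_ : NormedAddCommGroup H) (_ : InnerProductSpace ℂ H)
    (_ : CompleteSpace H) (π : G →* unitary (H →L[ℂ] H)), ‖integrated π f‖ ≤ C) :
    fullNorm f ≤ C := by
  refine fullNorm_le_of_rep hC fun H i1 i2 i3 π => ?_
  rw [← integrated_ofRep]
  exact h H i1 i2 i3 _

end Pool.Agent.Lib.MP_f0f681_an
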