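import Mathlib
import Pool.Agent.Lib.MP_f0f681_an.Bridge

open scoped ComplexConjugate

namespace Pool.Agent.Lib.MP_f0f681_an

universe u

variable {G : Type u} [Group G]

theorem norm_coe_toGroupAlg (f : G →₀ ℂ) : ‖(toGroupAlg f : FullCStar G)‖ = fullNorm f := by
  rw [UniformSpace.Completion.norm_coe]; rfl

theorem delta_eq (g : G) : delta g = (toGroupAlg (Finsupp.single g (1 : ℂ)) : FullCStar G) := rfl

theorem coe_toGroupAlg_eq_sum (f : G →₀ ℂ) :
    (toGroupAlg f : FullCStar G) = f.sum fun g c => c • delta g := by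
  have h : f = f.sum fun g c => c • Finsupp.single g (1 : ℂ) := by
    conv_lhs => rw [← Finsupp.sum_single f]
    simp
  conv_lhs => rw [h]
  simp only [Finsupp.sum, map_sum, map_smul, delta_eq]
  have : ∀ (s : Finset G) (F : G → GroupAlg G),
      ((∑ g ∈ s, F g : GroupAlg G) : FullCStar G) = ∑ g ∈ s, (F g : FullCStar G) := by
    intro s F
    exact map_sum (UniformSpace.Completion.toComplL (𝕜 := ℂ) (E := GroupAlg G)) F s
  rw [this]
  simp only [UniformSpace.Completion.coe_smul]

/-- Two continuous maps out of `C*(G)` agreeing on finitely supported functions agree. -/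
theorem ext_of_groupAlg {E : Type*} [TopologicalSpace E] [T2Space E] {φ ψ : FullCStar G → E}
    (hφ : Continuous φ) (hψ : Continuous ψ)
    (h : ∀ f : G →₀ ℂ, φ (toGroupAlg f) = ψ (toGroupAlg f)) : φ = ψ := by
  funext x
  induction x using UniformSpace.Completion.induction_on with
  | hp => exact isClosed_eq hφ hψ
  | ih a => exact h a

theorem ext_of_delta {E : Type*} [TopologicalSpace E] [T2Space E] [AddCommMonoid E] [Module ℂ E]
    {φ ψ : FullCStar G →L[ℂ] E} (h : ∀ g, φ (delta g) = ψ (delta g)) : φ = ψ := by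
  apply DFunLike.coe_injective
  refine ext_of_groupAlg φ.continuous ψ.continuous fun f => ?_
  rw [coe_toGroupAlg_eq_sum]
  simp only [Finsupp.sum, map_sum, map_smul, h]

/-- Extension of a linear map on the group algebra, bounded for the full norm, to `C*(G)`. -/
noncomputable def lift {E : Type*} [NormedAddCommGroup E] [NormedSpace ℂ E] [CompleteSpace E]
    (T : (G →₀ ℂ) →ₗ[ℂ] E) (C : ℝ) (h : ∀ f, ‖T f‖ ≤ C * fullNorm f) : FullCStar G →L[ℂ] E :=
  (LinearMap.mkContinuous (T.comp (toGroupAlg (G := G)).symm.toLinearMap : GroupAlg G →ₗ[ℂ] E)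
    C h).fromCompletion

@[simp]
theorem lift_coe {E : Type*} [NormedAddCommGroup E] [NormedSpace ℂ E] [CompleteSpace E]
    (T : (G →₀ ℂ) →ₗ[ℂ] E) (C : ℝ) (h : ∀ f, ‖T f‖ ≤ C * fullNorm f) (f : G →₀ ℂ) :
    lift T C h (toGroupAlg f) = T f := by
  unfold lift
  rw [ContinuousLinearMap.fromCompletion_apply_coe]
  rfl

theorem lift_delta {E : Type*} [NormedAddCommGroup E] [NormedSpace ℂ E] [CompleteSpace E]
    (T : (G →₀ ℂ) →ₗ[ℂ] E) (C : ℝ) (h : ∀ f, ‖T f‖ ≤ C * fullNorm f) (g : G) :
    lift T C h (delta g) = T (Finsupp.single g 1) := by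
  rw [delta_eq, lift_coe]

/-- Extension of a linear endomorphism of the group algebra, bounded for the full norm,
to `C*(G)`. -/
noncomputable def liftEnd (T : (G →₀ ℂ) →ₗ[ℂ] (G →₀ ℂ)) (C : ℝ)
    (h : ∀ f, fullNorm (T f) ≤ C * fullNorm f) : FullCStar G →L[ℂ] FullCStar G :=
  lift ((UniformSpace.Completion.toComplL (𝕜 := ℂ) (E := GroupAlg G)).toLinearMap ∘ₗ
    (toGroupAlg (G := G)).toLinearMap ∘ₗ T) C (fun f => by
      refine le_trans (le_of_eq ?_) (h f)
      exact norm_coe_toGroupAlg (T f))

theorem liftEnd_coe (T : (G →₀ ℂ) →ₗ[ℂ] (G →₀ ℂ)) (C : ℝ)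
    (h : ∀ f, fullNorm (T f) ≤ C * fullNorm f) (f : G →₀ ℂ) :
    liftEnd T C h (toGroupAlg f) = (toGroupAlg (T f) : FullCStar G) := by
  unfold liftEnd
  rw [lift_coe]
  rfl

section rep

variable {H : Type u} [NormedAddCommGroup H] [InnerProductSpace ℂ H] [CompleteSpace H]

/-- Integrated form as a linear map. -/
noncomputable def integratedₗ (π : G →* unitary (H →L[ℂ] H)) : (G →₀ ℂ) →ₗ[ℂ] (H →L[ℂ] H) where
  toFun := integrated π
  map_add' := integrated_add π
  map_smul' := integrated_smul π

@[simp]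
theorem integratedₗ_apply (π : G →* unitary (H →L[ℂ] H)) (f : G →₀ ℂ) :
    integratedₗ π f = integrated π f := rfl

/-- Extension of the integrated form to `C*(G)`. -/
noncomputable def repExt (π : G →* unitary (H →L[ℂ] H)) : FullCStar G →L[ℂ] (H →L[ℂ] H) :=
  lift (integratedₗ π) 1 (fun f => by
    rw [one_mul]; exact norm_integrated_le_fullNorm π f)

theorem repExt_coe (π : G →* unitary (H →L[ℂ] H)) (f : G →₀ ℂ) :
    repExt π (toGroupAlg f) = integrated π f := by
  unfold repExt; rw [lift_coe]; rfl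

/-- The coefficient functional `x ↦ ⟨π(x) ξ, η⟩` on `C*(G)`. -/
noncomputable def coeffFunctional (π : G →* unitary (H →L[ℂ] H)) (ξ η : H) :
    FullCStar G →L[ℂ] ℂ :=
  (innerSL ℂ η).comp ((ContinuousLinearMap.apply ℂ H ξ).comp (repExt π))

theorem coeffFunctional_coe (π : G →* unitary (H →L[ℂ] H)) (ξ η : H) (f : G →₀ ℂ) :
    coeffFunctional π ξ η (toGroupAlg f) = inner ℂ η (integrated π f ξ) := by
  unfold coeffFunctional
  simp [repExt_coe]

theorem integrated_apply (π : G →* unitary (H →L[ℂ] H)) (f : G →₀ ℂ) (ξ : H) :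
    integrated π f ξ = f.sum fun g c => c • (π g : H →L[ℂ] H) ξ := by
  unfold integrated Finsupp.sum
  simp

theorem coeffFunctional_delta (π : G →* unitary (H →L[ℂ] H)) (ξ η : H) (g : G) :
    coeffFunctional π ξ η (delta g) = inner ℂ η ((π g : H →L[ℂ] H) ξ) := by
  rw [delta_eq, coeffFunctional_coe, integrated_single, one_smul]

end rep

section translation

/-- Left translation `g ↦ s g` on finitely supported functions. -/
noncomputable def leftTransₗ (s : G) : (G →₀ ℂ) →ₗ[ℂ] (G →₀ ℂ) :=
  Finsupp.lmapDomain ℂ ℂ (fun g => s * g)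

/-- Right translation `g ↦ g s` on finitely supported functions. -/
noncomputable def rightTransₗ (s : G) : (G →₀ ℂ) →ₗ[ℂ] (G →₀ ℂ) :=
  Finsupp.lmapDomain ℂ ℂ (fun g => g * s)

variable {H : Type u} [NormedAddCommGroup H] [InnerProductSpace ℂ H] [CompleteSpace H]

theorem integrated_leftTrans (π : G →* unitary (H →L[ℂ] H)) (s : G) (f : G →₀ ℂ) :
    integrated π (leftTransₗ s f) = (π s : H →L[ℂ] H) * integrated π f := by
  induction f using Finsupp.induction_linear with
  | zero => simp [integrated_zero]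
  | add f g hf hg => rw [map_add, integrated_add, hf, hg, integrated_add, mul_add]
  | single g c =>
    simp [leftTransₗ, Finsupp.mapDomain_single, integrated_single]

theorem integrated_rightTrans (π : G →* unitary (H →L[ℂ] H)) (s : G) (f : G →₀ ℂ) :
    integrated π (rightTransₗ s f) = integrated π f * (π s : H →L[ℂ] H) := by
  induction f using Finsupp.induction_linear with
  | zero => simp [integrated_zero]
  | add f g hf hg => rw [map_add, integrated_add, hf, hg, integrated_add, add_mul]
  | single g c =>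
    simp [rightTransₗ, Finsupp.mapDomain_single, integrated_single]

theorem fullNorm_leftTrans_le (s : G) (f : G →₀ ℂ) :
    fullNorm (leftTransₗ s f) ≤ 1 * fullNorm f := by
  rw [one_mul]
  refine fullNorm_le (fullNorm_nonneg _) fun H _ _ _ π => ?_
  rw [integrated_leftTrans]
  refine (norm_mul_le _ _).trans ?_
  calc _ ≤ 1 * ‖integrated π f‖ := by gcongr; exact norm_unitary_le_one _
    _ ≤ fullNorm f := by rw [one_mul]; exact norm_integrated_le_fullNorm π f

theorem fullNorm_rightTrans_le (s : G) (f : G →₀ ℂ) :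
    fullNorm (rightTransₗ s f) ≤ 1 * fullNorm f := by
  rw [one_mul]
  refine fullNorm_le (fullNorm_nonneg _) fun H _ _ _ π => ?_
  rw [integrated_rightTrans]
  refine (norm_mul_le _ _).trans ?_
  calc _ ≤ ‖integrated π f‖ * 1 := by gcongr; exact norm_unitary_le_one _
    _ ≤ fullNorm f := by rw [mul_one]; exact norm_integrated_le_fullNorm π f

/-- Left translation on `C*(G)`. -/
noncomputable def leftTrans (s : G) : FullCStar G →L[ℂ] FullCStar G :=
  liftEnd (leftTransₗ s) 1 (fullNorm_leftTrans_le s)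

/-- Right translation on `C*(G)`. -/
noncomputable def rightTrans (s : G) : FullCStar G →L[ℂ] FullCStar G :=
  liftEnd (rightTransₗ s) 1 (fullNorm_rightTrans_le s)

theorem leftTrans_delta (s g : G) : leftTrans s (delta g) = delta (s * g) := by
  rw [delta_eq, leftTrans, liftEnd_coe, delta_eq]
  simp [leftTransₗ, Finsupp.mapDomain_single]

theorem rightTrans_delta (s g : G) : rightTrans s (delta g) = delta (g * s) := by
  rw [delta_eq, rightTrans, liftEnd_coe, delta_eq]
  simp [rightTransₗ, Finsupp.mapDomain_single]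

end translation

end Pool.Agent.Lib.MP_f0f681_an
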