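import Mathlib
import Pool.Agent.Lib.MP_f0f681_an.Basic

open scoped ComplexConjugate TensorProduct

namespace Pool.Agent.Lib.MP_f0f681_an

universe u

section completion

variable {E : Type u} [NormedAddCommGroup E] [InnerProductSpace ℂ E]

theorem completion_mul (S T : E →L[ℂ] E) :
    (S * T).completion = S.completion * T.completion := by
  ext x
  induction x using UniformSpace.Completion.induction_on with
  | hp =>
    exact isClosed_eq (S * T).completion.continuous
      (S.completion * T.completion).continuous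
  | ih a =>
    simp

theorem completion_one : (1 : E →L[ℂ] E).completion = 1 := by
  ext x
  induction x using UniformSpace.Completion.induction_on with
  | hp =>
    exact isClosed_eq (1 : E →L[ℂ] E).completion.continuous continuous_id
  | ih a =>
    simp

theorem completion_mem_unitary {S T : E →L[ℂ] E} (hST : S * T = 1) (hTS : T * S = 1)
    (h : ∀ x, ‖T x‖ = ‖x‖) :
    T.completion ∈ unitary (UniformSpace.Completion E →L[ℂ] UniformSpace.Completion E) := by
  have hu : IsUnit T.completion := by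
    refine ⟨⟨T.completion, S.completion, ?_, ?_⟩, rfl⟩
    · rw [← completion_mul, hTS, completion_one]
    · rw [← completion_mul, hST, completion_one]
  refine IsUnit.mem_unitary_of_star_mul_self hu ?_
  refine (T.completion.norm_map_iff_adjoint_comp_self).mp fun x => ?_
  induction x using UniformSpace.Completion.induction_on with
  | hp => exact isClosed_eq (by fun_prop) (by fun_prop)
  | ih a => simp [h]

end completion

section tensor

variable {H K : Type u} [NormedAddCommGroup H] [InnerProductSpace ℂ H] [CompleteSpace H]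
  [NormedAddCommGroup K] [InnerProductSpace ℂ K] [CompleteSpace K]

theorem norm_mapL_unitary (U : unitary (H →L[ℂ] H)) (V : unitary (K →L[ℂ] K)) (x : H ⊗[ℂ] K) :
    ‖TensorProduct.mapL (U : H →L[ℂ] H) (V : K →L[ℂ] K) x‖ = ‖x‖ := by
  rw [TensorProduct.mapL_apply]
  exact TensorProduct.norm_map (Unitary.linearIsometryEquiv U).toLinearIsometry
    (Unitary.linearIsometryEquiv V).toLinearIsometry x

theorem mapL_star_mul (U : unitary (H →L[ℂ] H)) (V : unitary (K →L[ℂ] K)) :
    TensorProduct.mapL ((star U : unitary (H →L[ℂ] H)) : H →L[ℂ] H)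
        ((star V : unitary (K →L[ℂ] K)) : K →L[ℂ] K) *
      TensorProduct.mapL (U : H →L[ℂ] H) (V : K →L[ℂ] K) = 1 := by
  rw [← TensorProduct.mapL_mul, Unitary.coe_star, Unitary.coe_star, Unitary.coe_star_mul_self,
    Unitary.coe_star_mul_self]
  exact TensorProduct.mapL_id_id

theorem mapL_mul_star (U : unitary (H →L[ℂ] H)) (V : unitary (K →L[ℂ] K)) :
    TensorProduct.mapL (U : H →L[ℂ] H) (V : K →L[ℂ] K) *
    TensorProduct.mapL ((star U : unitary (H →L[ℂ] H)) : H →L[ℂ] H)
        ((star V : unitary (K →L[ℂ] K)) : K →L[ℂ] K) = 1 := by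
  rw [← TensorProduct.mapL_mul, Unitary.coe_mul_star_self, Unitary.coe_mul_star_self]
  exact TensorProduct.mapL_id_id

/-- The Hilbert space tensor product of two unitaries. -/
noncomputable def tensorUnitary (U : unitary (H →L[ℂ] H)) (V : unitary (K →L[ℂ] K)) :
    unitary (UniformSpace.Completion (H ⊗[ℂ] K) →L[ℂ] UniformSpace.Completion (H ⊗[ℂ] K)) :=
  ⟨(TensorProduct.mapL (U : H →L[ℂ] H) (V : K →L[ℂ] K)).completion,
    completion_mem_unitary (mapL_star_mul U V) (mapL_mul_star U V) (norm_mapL_unitary U V)⟩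

theorem tensorUnitary_coe (U : unitary (H →L[ℂ] H)) (V : unitary (K →L[ℂ] K)) :
    (tensorUnitary U V : UniformSpace.Completion (H ⊗[ℂ] K) →L[ℂ] _) =
      (TensorProduct.mapL (U : H →L[ℂ] H) (V : K →L[ℂ] K)).completion := rfl

variable {G : Type u} [Group G]

/-- The tensor product of two unitary representations. -/
noncomputable def tensorRep (π : G →* unitary (H →L[ℂ] H)) (σ : G →* unitary (K →L[ℂ] K)) :
    G →* unitary (UniformSpace.Completion (H ⊗[ℂ] K) →L[ℂ]
      UniformSpace.Completion (H ⊗[ℂ] K)) where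
  toFun g := tensorUnitary (π g) (σ g)
  map_one' := by
    apply Subtype.ext
    rw [tensorUnitary_coe, map_one, map_one]
    simp only [OneMemClass.coe_one]
    rw [show TensorProduct.mapL (1 : H →L[ℂ] H) (1 : K →L[ℂ] K) = 1 from
      TensorProduct.mapL_id_id, completion_one]
  map_mul' g h := by
    apply Subtype.ext
    simp only [Submonoid.coe_mul, tensorUnitary_coe, map_mul]
    rw [TensorProduct.mapL_mul, completion_mul]

theorem tensorRep_coeff (π : G →* unitary (H →L[ℂ] H)) (σ : G →* unitary (K →L[ℂ] K)) (g : G)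
    (ξ η : H) (α β : K) :
    inner ℂ ((η ⊗ₜ[ℂ] β : H ⊗[ℂ] K) : UniformSpace.Completion (H ⊗[ℂ] K))
      ((tensorRep π σ g : _ →L[ℂ] _) ((ξ ⊗ₜ[ℂ] α : H ⊗[ℂ] K) :
        UniformSpace.Completion (H ⊗[ℂ] K))) =
      inner ℂ η ((π g : H →L[ℂ] H) ξ) * inner ℂ β ((σ g : K →L[ℂ] K) α) := by
  change inner ℂ ((η ⊗ₜ[ℂ] β : H ⊗[ℂ] K) : UniformSpace.Completion (H ⊗[ℂ] K))
      ((TensorProduct.mapL (π g : H →L[ℂ] H) (σ g : K →L[ℂ] K)).completion
        ((ξ ⊗ₜ[ℂ] α : H ⊗[ℂ] K) : UniformSpace.Completion (H ⊗[ℂ] K))) = _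
  rw [ContinuousLinearMap.completion_apply_coe, UniformSpace.Completion.inner_coe,
    TensorProduct.mapL_tmul, TensorProduct.inner_tmul]

end tensor

section multiplier

variable {G : Type u}

/-- Pointwise multiplication by a function on finitely supported functions. -/
noncomputable def mulₗ (u : G → ℂ) : (G →₀ ℂ) →ₗ[ℂ] (G →₀ ℂ) :=
  Finsupp.lsum ℂ fun g => (Finsupp.lsingle g : ℂ →ₗ[ℂ] (G →₀ ℂ)).comp (LinearMap.mulLeft ℂ (u g))

theorem mulₗ_single (u : G → ℂ) (g : G) (c : ℂ) :
    mulₗ u (Finsupp.single g c) = Finsupp.single g (u g * c) := by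
  simp [mulₗ]

theorem mulₗ_apply (u : G → ℂ) (f : G →₀ ℂ) (g : G) : mulₗ u f g = u g * f g := by
  classical
  induction f using Finsupp.induction_linear with
  | zero => simp
  | add f h hf hh => simp [hf, hh, mul_add]
  | single a c =>
    rw [mulₗ_single]
    by_cases h : a = g
    · subst h; simp
    · simp [Finsupp.single_eq_of_ne' h]

variable [Group G]

section
variable {H K : Type u} [NormedAddCommGroup H] [InnerProductSpace ℂ H] [CompleteSpace H]
  [NormedAddCommGroup K] [InnerProductSpace ℂ K] [CompleteSpace K]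

/-- coefficient function of a unitary representation -/
noncomputable def coeffFun (π : G →* unitary (H →L[ℂ] H)) (ξ η : H) : G → ℂ :=
  fun g => inner ℂ η ((π g : H →L[ℂ] H) ξ)

theorem inner_integrated_mul (π : G →* unitary (H →L[ℂ] H)) (σ : G →* unitary (K →L[ℂ] K))
    (ξ η : H) (α β : K) (f : G →₀ ℂ) :
    inner ℂ β (integrated σ (mulₗ (coeffFun π ξ η) f) α) =
      inner ℂ ((η ⊗ₜ[ℂ] β : H ⊗[ℂ] K) : UniformSpace.Completion (H ⊗[ℂ] K))
      (integrated (tensorRep π σ) f ((ξ ⊗ₜ[ℂ] α : H ⊗[ℂ] K) :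
        UniformSpace.Completion (H ⊗[ℂ] K))) := by
  induction f using Finsupp.induction_linear with
  | zero => simp [integrated_zero]
  | add f g hf hg =>
    rw [map_add, integrated_add, integrated_add, add_apply,
      add_apply, inner_add_right, inner_add_right, hf, hg]
  | single a c =>
    rw [mulₗ_single, integrated_single, integrated_single, smul_apply,
      smul_apply, inner_smul_right, inner_smul_right, tensorRep_coeff]
    unfold coeffFun
    ring

theorem fullNorm_mul_coeffFun_le (π : G →* unitary (H →L[ℂ] H)) (ξ η : H) (f : G →₀ ℂ) :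
    fullNorm (mulₗ (coeffFun π ξ η) f) ≤ ‖ξ‖ * ‖η‖ * fullNorm f := by
  refine fullNorm_le (mul_nonneg (by positivity) (fullNorm_nonneg _)) fun K _ _ _ σ => ?_
  refine ContinuousLinearMap.opNorm_le_bound _ (mul_nonneg (by positivity) (fullNorm_nonneg _))
    fun α => ?_
  -- use the vector itself as a test vector
  set β := integrated σ (mulₗ (coeffFun π ξ η) f) α with hβ
  have key : ‖inner ℂ β β‖ ≤ (‖η‖ * ‖β‖) * (fullNorm f * (‖ξ‖ * ‖α‖)) := by
    conv_lhs => rw [hβ]
    rw [← hβ, hβ, inner_integrated_mul, ← hβ]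
    refine (norm_inner_le_norm _ _).trans ?_
    rw [UniformSpace.Completion.norm_coe, TensorProduct.norm_tmul]
    gcongr
    refine (ContinuousLinearMap.le_opNorm _ _).trans ?_
    rw [UniformSpace.Completion.norm_coe, TensorProduct.norm_tmul]
    gcongr
    exact norm_integrated_le_fullNorm _ _
  rw [inner_self_eq_norm_sq_to_K] at key
  have h2 : ‖((‖β‖ : ℂ)) ^ 2‖ = ‖β‖ ^ 2 := by
    rw [norm_pow]; simp
  by_cases h0 : ‖β‖ = 0
  · rw [h0]; have := fullNorm_nonneg f; positivity
  · have hpos : 0 < ‖β‖ := lt_of_le_of_ne (norm_nonneg _) (Ne.symm h0)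
    have key' : ‖β‖ * ‖β‖ ≤ (‖ξ‖ * ‖η‖ * fullNorm f * ‖α‖) * ‖β‖ := by
      have : ‖β‖ ^ 2 ≤ (‖η‖ * ‖β‖) * (fullNorm f * (‖ξ‖ * ‖α‖)) := by
        refine le_trans (le_of_eq ?_) key
        rw [← h2]; rfl
      nlinarith [this]
    exact le_of_mul_le_mul_right key' hpos

/-- Pairing of a bounded functional with a multiplied element. -/
theorem functional_mul_coeffFun (φ : FullCStar G →L[ℂ] ℂ) (π : G →* unitary (H →L[ℂ] H))
    (ξ η : H) (f : G →₀ ℂ) :
    inner ℂ η (integrated π (mulₗ (fun g => φ (delta g)) f) ξ) =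
      φ (toGroupAlg (mulₗ (coeffFun π ξ η) f)) := by
  induction f using Finsupp.induction_linear with
  | zero => simp [integrated_zero, UniformSpace.Completion.coe_zero]
  | add f g hf hg =>
    rw [map_add, integrated_add, add_apply, inner_add_right, hf, hg,
      map_add, map_add, UniformSpace.Completion.coe_add, map_add]
  | single a c =>
    rw [mulₗ_single, integrated_single, smul_apply, inner_smul_right,
      mulₗ_single, coe_toGroupAlg_eq_sum, Finsupp.sum_single_index (by simp), map_smul]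
    unfold coeffFun
    simp only [smul_eq_mul]
    ring

end

theorem fullNorm_mul_functional_le (φ : FullCStar G →L[ℂ] ℂ) (f : G →₀ ℂ) :
    fullNorm (mulₗ (fun g => φ (delta g)) f) ≤ ‖φ‖ * fullNorm f := by
  refine fullNorm_le (mul_nonneg (norm_nonneg _) (fullNorm_nonneg _)) fun H _ _ _ π => ?_
  refine ContinuousLinearMap.opNorm_le_bound _ (mul_nonneg (norm_nonneg _) (fullNorm_nonneg _))
    fun ξ => ?_
  set η := integrated π (mulₗ (fun g => φ (delta g)) f) ξ with hη
  have key : ‖inner ℂ η η‖ ≤ ‖φ‖ * (‖ξ‖ * ‖η‖ * fullNorm f) := by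
    conv_lhs => rw [hη]
    rw [← hη, hη, functional_mul_coeffFun, ← hη]
    refine (φ.le_opNorm _).trans ?_
    rw [norm_coe_toGroupAlg]
    gcongr
    exact fullNorm_mul_coeffFun_le π ξ η f
  rw [inner_self_eq_norm_sq_to_K] at key
  have h2 : ‖((‖η‖ : ℂ)) ^ 2‖ = ‖η‖ ^ 2 := by
    rw [norm_pow]; simp
  by_cases h0 : ‖η‖ = 0
  · rw [h0]; have := fullNorm_nonneg f; positivity
  · have hpos : 0 < ‖η‖ := lt_of_le_of_ne (norm_nonneg _) (Ne.symm h0)
    have key' : ‖η‖ * ‖η‖ ≤ (‖φ‖ * fullNorm f * ‖ξ‖) * ‖η‖ := by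
      have : ‖η‖ ^ 2 ≤ ‖φ‖ * (‖ξ‖ * ‖η‖ * fullNorm f) := by
        refine le_trans (le_of_eq ?_) key
        rw [← h2]; rfl
      nlinarith [this]
    exact le_of_mul_le_mul_right key' hpos

/-- Multiplication by (the function of) a bounded functional, as an operator on `C*(G)`. -/
noncomputable def mulOp (φ : FullCStar G →L[ℂ] ℂ) : FullCStar G →L[ℂ] FullCStar G :=
  liftEnd (mulₗ fun g => φ (delta g)) ‖φ‖ (fullNorm_mul_functional_le φ)

theorem mulOp_delta (φ : FullCStar G →L[ℂ] ℂ) (g : G) :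
    mulOp φ (delta g) = φ (delta g) • delta g := by
  rw [delta_eq, mulOp, liftEnd_coe, mulₗ_single, coe_toGroupAlg_eq_sum,
    Finsupp.sum_single_index (by simp), mul_one]
  rfl

end multiplier

end Pool.Agent.Lib.MP_f0f681_an
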