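import Mathlib
import Pool.Agent.Lib.MP_f0f681_an.Tensor

open scoped ComplexConjugate

namespace Pool.Agent.Lib.MP_f0f681_an

universe u

variable {G : Type u} [Group G]

/-- Precomposition with a bounded operator, on the weak dual. -/
noncomputable def precomp (T : FullCStar G →L[ℂ] FullCStar G) (φ : WeakDual ℂ (FullCStar G)) :
    WeakDual ℂ (FullCStar G) :=
  StrongDual.toWeakDual ((WeakDual.toStrongDual φ).comp T)

theorem precomp_apply (T : FullCStar G →L[ℂ] FullCStar G) (φ : WeakDual ℂ (FullCStar G))
    (x : FullCStar G) : precomp T φ x = φ (T x) := rfl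

theorem continuous_precomp (T : FullCStar G →L[ℂ] FullCStar G) : Continuous (precomp T) := by
  apply WeakDual.continuous_of_continuous_eval
  intro y
  exact WeakDual.eval_continuous (T y)

theorem toFunction_injective : Function.Injective (toFunction (G := G)) := by
  intro φ ψ h
  have : WeakDual.toStrongDual φ = WeakDual.toStrongDual ψ :=
    ext_of_delta fun g => congrFun h g
  exact (WeakDual.toStrongDual).injective this

theorem toFunction_add (φ ψ : WeakDual ℂ (FullCStar G)) :
    toFunction (φ + ψ) = toFunction φ + toFunction ψ := rfl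

theorem toFunction_smul (c : ℂ) (φ : WeakDual ℂ (FullCStar G)) :
    toFunction (c • φ) = c • toFunction φ := rfl

theorem toFunction_leftTrans (s : G) (φ : WeakDual ℂ (FullCStar G)) :
    toFunction (precomp (leftTrans s) φ) = fun x => toFunction φ (s * x) := by
  funext x
  unfold toFunction
  rw [precomp_apply, leftTrans_delta]

theorem toFunction_rightTrans (s : G) (φ : WeakDual ℂ (FullCStar G)) :
    toFunction (precomp (rightTrans s) φ) = fun x => toFunction φ (x * s) := by
  funext x
  unfold toFunction
  rw [precomp_apply, rightTrans_delta]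

/-- product of functionals -/
noncomputable def fmul (φ ψ : WeakDual ℂ (FullCStar G)) : WeakDual ℂ (FullCStar G) :=
  precomp (mulOp (WeakDual.toStrongDual ψ)) φ

theorem toFunction_fmul (φ ψ : WeakDual ℂ (FullCStar G)) :
    toFunction (fmul φ ψ) = toFunction φ * toFunction ψ := by
  funext x
  unfold toFunction fmul
  rw [precomp_apply, mulOp_delta]
  have : φ (ψ (delta x) • delta x) = ψ (delta x) * φ (delta x) := by
    rw [map_smul, smul_eq_mul]
  rw [Pi.mul_apply, mul_comm]
  exact this

theorem fmul_comm (φ ψ : WeakDual ℂ (FullCStar G)) : fmul φ ψ = fmul ψ φ := by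
  apply toFunction_injective
  rw [toFunction_fmul, toFunction_fmul, mul_comm]

theorem continuous_fmul_left (ψ : WeakDual ℂ (FullCStar G)) :
    Continuous fun φ : WeakDual ℂ (FullCStar G) => fmul φ ψ :=
  continuous_precomp _

/-- The functional given by the trivial representation. -/
noncomputable def trivialFunctional : WeakDual ℂ (FullCStar G) :=
  StrongDual.toWeakDual (coeffFunctional (H := EuclideanSpace ℂ PUnit.{u+1}) 1
    (EuclideanSpace.single PUnit.unit 1) (EuclideanSpace.single PUnit.unit 1))

theorem toFunction_trivial : toFunction (trivialFunctional (G := G)) = 1 := by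
  funext g
  change coeffFunctional (H := EuclideanSpace ℂ PUnit.{u+1}) 1
    (EuclideanSpace.single PUnit.unit 1) (EuclideanSpace.single PUnit.unit 1) (delta g) = 1
  rw [coeffFunctional_delta]
  simp

/-- The functionals whose function lies in `S`. -/
def functionals (S : Set (G → ℂ)) : Set (WeakDual ℂ (FullCStar G)) :=
  {φ | toFunction φ ∈ S}

/-- The weak* closure of the part of an algebra of functions lying in `B(G)`. -/
noncomputable def weakStarClosure (S : Subalgebra ℂ (G → ℂ)) : Subalgebra ℂ (G → ℂ) where
  carrier := toFunction '' closure (functionals (S : Set (G → ℂ)))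
  mul_mem' := by
    rintro _ _ ⟨φ, hφ, rfl⟩ ⟨ψ, hψ, rfl⟩
    refine ⟨fmul φ ψ, ?_, toFunction_fmul φ ψ⟩
    have h1 : ∀ ψ ∈ functionals (S : Set (G → ℂ)), ∀ φ ∈ closure (functionals (S : Set (G → ℂ))),
        fmul φ ψ ∈ closure (functionals (S : Set (G → ℂ))) := by
      intro ψ hψ φ hφ
      refine map_mem_closure (f := fun θ => fmul θ ψ) (continuous_fmul_left ψ) hφ fun θ hθ => ?_
      change toFunction (fmul θ ψ) ∈ S
      rw [toFunction_fmul]
      exact S.mul_mem hθ hψ
    rw [fmul_comm]
    have h2 := map_mem_closure (continuous_fmul_left φ) hψ (t := closure (functionals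
      (S : Set (G → ℂ)))) fun θ hθ => by
      change fmul θ φ ∈ _
      rw [fmul_comm]
      exact h1 θ hθ φ hφ
    rwa [closure_closure] at h2
  add_mem' := by
    rintro _ _ ⟨φ, hφ, rfl⟩ ⟨ψ, hψ, rfl⟩
    refine ⟨φ + ψ, ?_, toFunction_add φ ψ⟩
    refine map_mem_closure₂ continuous_add hφ hψ fun a ha b hb => ?_
    change toFunction (a + b) ∈ S
    rw [toFunction_add]
    exact S.add_mem ha hb
  algebraMap_mem' := by
    intro c
    refine ⟨c • trivialFunctional, subset_closure ?_, ?_⟩
    · change toFunction (c • trivialFunctional) ∈ S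
      rw [toFunction_smul, toFunction_trivial]
      exact S.smul_mem S.one_mem c
    · rw [toFunction_smul, toFunction_trivial, Algebra.algebraMap_eq_smul_one]

theorem mem_weakStarClosure (S : Subalgebra ℂ (G → ℂ)) (φ : WeakDual ℂ (FullCStar G)) :
    toFunction φ ∈ weakStarClosure S ↔ φ ∈ closure (functionals (S : Set (G → ℂ))) := by
  constructor
  · rintro ⟨ψ, hψ, h⟩
    rwa [← toFunction_injective h]
  · intro h
    exact ⟨φ, h, rfl⟩

theorem weakStarClosure_subset (S : Subalgebra ℂ (G → ℂ)) :
    (weakStarClosure S : Set (G → ℂ)) ⊆ FourierStieltjes G := by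
  rintro _ ⟨φ, _, rfl⟩
  exact ⟨φ, rfl⟩

theorem isWeakStarClosed_weakStarClosure (S : Subalgebra ℂ (G → ℂ)) :
    IsWeakStarClosed (weakStarClosure S : Set (G → ℂ)) := by
  unfold IsWeakStarClosed
  have : {φ : WeakDual ℂ (FullCStar G) | toFunction φ ∈ (weakStarClosure S : Set (G → ℂ))} =
      closure (functionals (S : Set (G → ℂ))) := by
    ext φ
    exact mem_weakStarClosure S φ
  rw [this]
  exact isClosed_closure

theorem isTranslationInvariant_weakStarClosure (S : Subalgebra ℂ (G → ℂ))
    (h : IsTranslationInvariant (S : Set (G → ℂ))) :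
    IsTranslationInvariant (weakStarClosure S : Set (G → ℂ)) := by
  rintro _ ⟨φ, hφ, rfl⟩ s
  constructor
  · rw [← toFunction_leftTrans]
    refine ⟨_, ?_, rfl⟩
    refine map_mem_closure (continuous_precomp _) hφ fun θ hθ => ?_
    change toFunction (precomp (leftTrans s) θ) ∈ S
    rw [toFunction_leftTrans]
    exact (h _ hθ s).1
  · rw [← toFunction_rightTrans]
    refine ⟨_, ?_, rfl⟩
    refine map_mem_closure (continuous_precomp _) hφ fun θ hθ => ?_
    change toFunction (precomp (rightTrans s) θ) ∈ S
    rw [toFunction_rightTrans]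
    exact (h _ hθ s).2

/-- If `x` in `C*(G)` is annihilated by all functionals with function in `S`, then it is
annihilated by all functionals in the weak* closure. -/
theorem eq_zero_of_mem_weakStarClosure (S : Subalgebra ℂ (G → ℂ)) (x : FullCStar G)
    (hx : ∀ φ : WeakDual ℂ (FullCStar G), toFunction φ ∈ S → φ x = 0)
    (φ : WeakDual ℂ (FullCStar G)) (hφ : toFunction φ ∈ weakStarClosure S) : φ x = 0 := by
  rw [mem_weakStarClosure] at hφ
  have hcl : IsClosed {φ : WeakDual ℂ (FullCStar G) | φ x = 0} :=
    isClosed_eq (WeakDual.eval_continuous x) continuous_const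
  exact hcl.closure_subset_iff.mpr (fun ψ hψ => hx ψ hψ) hφ

end Pool.Agent.Lib.MP_f0f681_an
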