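import Mathlib
import Pool.Agent.Lib.MP_f0f681_an.Closure

open scoped ComplexConjugate Polynomial
open Filter Topology

namespace Pool.Agent.Lib.MP_f0f681_an

universe u

variable {G : Type u} [Group G]

section rep

variable {H : Type u} [NormedAddCommGroup H] [InnerProductSpace ℂ H] [CompleteSpace H]

/-- The representation of the monoid algebra given by a unitary representation. -/
noncomputable def repAlg (π : G →* unitary (H →L[ℂ] H)) :
    MonoidAlgebra ℂ G →ₐ[ℂ] (H →L[ℂ] H) :=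
  MonoidAlgebra.lift ℂ (H →L[ℂ] H) G ((unitary (H →L[ℂ] H)).subtype.comp π)

theorem repAlg_eq (π : G →* unitary (H →L[ℂ] H)) (f : MonoidAlgebra ℂ G) :
    repAlg π f = integrated π f.coeff := by
  unfold repAlg integrated
  rw [MonoidAlgebra.lift_apply]
  rfl

/-- applying a real polynomial -/
theorem repAlg_aeval (π : G →* unitary (H →L[ℂ] H)) (f : MonoidAlgebra ℂ G) (p : ℝ[X]) :
    repAlg π (Polynomial.aeval f p) = Polynomial.aeval (repAlg π f) p :=
  (Polynomial.aeval_algHom_apply ((repAlg π).restrictScalars ℝ) f p).symm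

theorem norm_aeval_le {T : H →L[ℂ] H} (hT : IsSelfAdjoint T) (p : ℝ[X]) {C : ℝ} (hC : 0 ≤ C)
    (h : ∀ t ∈ spectrum ℝ T, |p.eval t| ≤ C) : ‖Polynomial.aeval T p‖ ≤ C := by
  rw [← cfc_polynomial p T hT]
  exact norm_cfc_le hC fun t ht => h t ht

theorem spectrum_subset_Icc {T : H →L[ℂ] H} {M : ℝ} (hM : ‖T‖ ≤ M) {t : ℝ}
    (ht : t ∈ spectrum ℝ T) : t ∈ Set.Icc (-M) M := by
  have h1 : |t| ≤ ‖T‖ * ‖(1 : H →L[ℂ] H)‖ := spectrum.norm_le_norm_mul_of_mem ht
  have h2 : ‖(1 : H →L[ℂ] H)‖ ≤ 1 := ContinuousLinearMap.norm_id_le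
  have h3 : |t| ≤ M := h1.trans ((mul_le_of_le_one_right (norm_nonneg _) h2).trans hM)
  exact abs_le.mp h3

theorem aeval_nonneg {T : H →L[ℂ] H} (hT : IsSelfAdjoint T) (p : ℝ[X])
    (h : ∀ t ∈ spectrum ℝ T, 0 ≤ p.eval t) (ξ : H) :
    0 ≤ (inner ℂ ξ ((Polynomial.aeval T p) ξ)).re := by
  have h0 : 0 ≤ Polynomial.aeval T p := by
    rw [← cfc_polynomial p T hT]
    exact cfc_nonneg h
  have h1 : (Polynomial.aeval T p).IsPositive := by
    rwa [ContinuousLinearMap.nonneg_iff_isPositive] at h0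
  exact h1.re_inner_nonneg_right ξ

theorem spectrum_le_of_inner_le {T : H →L[ℂ] H} (hT : IsSelfAdjoint T) {c : ℝ}
    (h : ∀ ξ : H, (inner ℂ ξ (T ξ)).re ≤ c * ‖ξ‖ ^ 2) {t : ℝ} (ht : t ∈ spectrum ℝ T) :
    t ≤ c := by
  have hle : T ≤ algebraMap ℝ (H →L[ℂ] H) c := by
    rw [ContinuousLinearMap.le_def]
    rw [ContinuousLinearMap.isPositive_def']
    constructor
    · refine IsSelfAdjoint.sub ?_ hT
      exact IsSelfAdjoint.algebraMap _ (IsSelfAdjoint.all c)
    · intro ξ
      have h1 := h ξ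
      rw [ContinuousLinearMap.reApplyInnerSelf_apply]
      have h2 : (algebraMap ℝ (H →L[ℂ] H) c - T) ξ = (c : ℂ) • ξ - T ξ := by
        rw [sub_apply, Algebra.algebraMap_eq_smul_one]
        simp
      rw [h2, inner_sub_left, inner_smul_left, inner_self_eq_norm_sq_to_K, map_sub]
      have h3 : (inner ℂ (T ξ) ξ).re = (inner ℂ ξ (T ξ)).re := by
        rw [← inner_conj_symm, Complex.conj_re]
      have h4 : RCLike.re ((starRingEnd ℂ) (c : ℂ) * ((‖ξ‖ : ℝ) : ℂ) ^ 2) = c * ‖ξ‖ ^ 2 := by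
        rw [Complex.conj_ofReal, ← Complex.ofReal_pow, ← Complex.ofReal_mul]
        exact Complex.ofReal_re _
      have h5 : RCLike.re (inner ℂ (T ξ) ξ) = (inner ℂ (T ξ) ξ).re := rfl
      rw [h5, h3]
      have h6 : 0 ≤ c * ‖ξ‖ ^ 2 - (inner ℂ ξ (T ξ)).re := by linarith
      refine h6.trans (le_of_eq ?_)
      rw [← h4]
      rfl
  exact (le_algebraMap_iff_spectrum_le hT).mp hle t ht

end rep

/-- **Functional calculus in the full group C*-algebra.** If `f` is a self-adjoint element of the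
group algebra, and `ρ` a representation with `ρ(f) ≤ c`, there is an element `x` of `C*(G)` killed
by all coefficients of `ρ`, but not killed by any vector state `ξ` with `⟨π(f) ξ, ξ⟩ > c`. -/
theorem exists_separating_element (f : MonoidAlgebra ℂ G)
    (hf : ∀ (H : Type u) (_ : NormedAddCommGroup H) (_ : InnerProductSpace ℂ H)
      (_ : CompleteSpace H) (π : G →* unitary (H →L[ℂ] H)), IsSelfAdjoint (repAlg π f))
    {K : Type u} [NormedAddCommGroup K] [InnerProductSpace ℂ K] [CompleteSpace K]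
    (ρ : G →* unitary (K →L[ℂ] K)) (c : ℝ)
    (hρ : ∀ ξ : K, (inner ℂ ξ (repAlg ρ f ξ)).re ≤ c * ‖ξ‖ ^ 2) :
    ∃ x : FullCStar G, (∀ α β : K, coeffFunctional ρ α β x = 0) ∧
      ∀ (H : Type u) (_ : NormedAddCommGroup H) (_ : InnerProductSpace ℂ H)
      (_ : CompleteSpace H) (π : G →* unitary (H →L[ℂ] H)) (ξ : H),
      c * ‖ξ‖ ^ 2 < (inner ℂ ξ (repAlg π f ξ)).re → coeffFunctional π ξ ξ x ≠ 0 := by
  set M : ℝ := fullNorm f.coeff with hM
  -- polynomial approximations of `t ↦ max (t - c) 0`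
  have happ : ∀ n : ℕ, ∃ p : ℝ[X], ∀ t ∈ Set.Icc (-M) M,
      |p.eval t - max (t - c) 0| < 1 / ((n : ℝ) + 1) := fun n =>
    exists_polynomial_near_of_continuousOn (-M) M (fun t => max (t - c) 0)
      (by fun_prop) _ Nat.one_div_pos_of_nat
  choose p hp using happ
  have hspec : ∀ (H : Type u) (_ : NormedAddCommGroup H) (_ : InnerProductSpace ℂ H)
      (_ : CompleteSpace H) (π : G →* unitary (H →L[ℂ] H)) (t : ℝ), t ∈ spectrum ℝ (repAlg π f) →
      t ∈ Set.Icc (-M) M := by
    intro H _ _ _ π t ht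
    refine spectrum_subset_Icc ?_ ht
    rw [repAlg_eq]
    exact norm_integrated_le_fullNorm π _
  -- the approximating sequence
  set y : ℕ → FullCStar G := fun n => (toGroupAlg (Polynomial.aeval f (p n)).coeff : FullCStar G)
    with hy
  have hcoeff : ∀ (H : Type u) (_ : NormedAddCommGroup H) (_ : InnerProductSpace ℂ H)
      (_ : CompleteSpace H) (π : G →* unitary (H →L[ℂ] H)) (ξ η : H) (n : ℕ),
      coeffFunctional π ξ η (y n) = inner ℂ η (Polynomial.aeval (repAlg π f) (p n) ξ) := by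
    intro H _ _ _ π ξ η n
    rw [hy, coeffFunctional_coe, ← repAlg_eq, repAlg_aeval]
  have hcauchy : CauchySeq y := by
    refine cauchySeq_of_le_tendsto_0 (fun n : ℕ => 2 / ((n : ℝ) + 1)) ?_ ?_
    · intro n m N hn hm
      rw [dist_eq_norm]
      have e1 : y n - y m = (toGroupAlg (Polynomial.aeval f (p n - p m)).coeff : FullCStar G) := by
        rw [hy, map_sub]
        simp only
        rw [← UniformSpace.Completion.coe_sub, ← map_sub]
        rfl
      rw [e1, norm_coe_toGroupAlg]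
      refine fullNorm_le (by positivity) fun H _ _ _ π => ?_
      rw [← repAlg_eq, repAlg_aeval]
      refine norm_aeval_le (hf H _ _ _ π) _ (by positivity) fun t ht => ?_
      have ht' := hspec H _ _ _ π t ht
      have a1 := hp n t ht'
      have a2 := hp m t ht'
      have b1 : 1 / ((n : ℝ) + 1) ≤ 1 / ((N : ℝ) + 1) := by
        apply one_div_le_one_div_of_le (by positivity)
        have : (N : ℝ) ≤ n := by exact_mod_cast hn
        linarith
      have b2 : 1 / ((m : ℝ) + 1) ≤ 1 / ((N : ℝ) + 1) := by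
        apply one_div_le_one_div_of_le (by positivity)
        have : (N : ℝ) ≤ m := by exact_mod_cast hm
        linarith
      rw [Polynomial.eval_sub]
      have b3 : (2 : ℝ) / ((N : ℝ) + 1) = 1 / ((N : ℝ) + 1) + 1 / ((N : ℝ) + 1) := by ring
      rw [b3]
      have := abs_sub_le ((p n).eval t) (max (t - c) 0) ((p m).eval t)
      have h3 : |max (t - c) 0 - (p m).eval t| = |(p m).eval t - max (t - c) 0| :=
        abs_sub_comm _ _
      linarith
    · have h1 := tendsto_one_div_add_atTop_nhds_zero_nat (𝕜 := ℝ)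
      have h2 := h1.const_mul 2
      rw [mul_zero] at h2
      refine h2.congr fun n => ?_
      ring
  obtain ⟨x, hx⟩ := cauchySeq_tendsto_of_complete hcauchy
  refine ⟨x, ?_, ?_⟩
  · intro α β
    have h1 : Tendsto (fun n => coeffFunctional ρ α β (y n)) atTop
        (𝓝 (coeffFunctional ρ α β x)) :=
      ((coeffFunctional ρ α β).continuous.tendsto x).comp hx
    have h2 : Tendsto (fun n => coeffFunctional ρ α β (y n)) atTop (𝓝 0) := by
      rw [tendsto_zero_iff_norm_tendsto_zero]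
      have h3 : Tendsto (fun n : ℕ => 1 / ((n : ℝ) + 1) * (‖α‖ * ‖β‖)) atTop (𝓝 0) := by
        have := (tendsto_one_div_add_atTop_nhds_zero_nat (𝕜 := ℝ)).mul_const (‖α‖ * ‖β‖)
        rwa [zero_mul] at this
      refine squeeze_zero (fun n => norm_nonneg _) (fun n => ?_) h3
      rw [hcoeff K _ _ _ ρ α β n]
      refine (norm_inner_le_norm _ _).trans ?_
      have h4 : ‖Polynomial.aeval (repAlg ρ f) (p n)‖ ≤ 1 / ((n : ℝ) + 1) := by
        refine norm_aeval_le (hf K _ _ _ ρ) _ (by positivity) fun t ht => ?_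
        have ht' := hspec K _ _ _ ρ t ht
        have ht'' : t ≤ c := spectrum_le_of_inner_le (hf K _ _ _ ρ) hρ ht
        have a1 := hp n t ht'
        rw [max_eq_right (by linarith), sub_zero] at a1
        exact a1.le
      calc ‖β‖ * ‖Polynomial.aeval (repAlg ρ f) (p n) α‖
          ≤ ‖β‖ * (‖Polynomial.aeval (repAlg ρ f) (p n)‖ * ‖α‖) := by
            gcongr; exact ContinuousLinearMap.le_opNorm _ _
        _ ≤ ‖β‖ * (1 / ((n : ℝ) + 1) * ‖α‖) := by gcongr
        _ = 1 / ((n : ℝ) + 1) * (‖α‖ * ‖β‖) := by ring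
    exact tendsto_nhds_unique h1 h2
  · intro H _ _ _ π ξ hξ
    have h1 : Tendsto (fun n => (coeffFunctional π ξ ξ (y n)).re) atTop
        (𝓝 (coeffFunctional π ξ ξ x).re) :=
      (Complex.continuous_re.tendsto _).comp (((coeffFunctional π ξ ξ).continuous.tendsto x).comp hx)
    have h2 : ∀ n : ℕ, (inner ℂ ξ (repAlg π f ξ)).re - (c + 1 / ((n : ℝ) + 1)) * ‖ξ‖ ^ 2 ≤
        (coeffFunctional π ξ ξ (y n)).re := by
      intro n
      rw [hcoeff H _ _ _ π ξ ξ n]
      have h3 := aeval_nonneg (hf H _ _ _ π)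
        (p n - Polynomial.X + Polynomial.C (c + 1 / ((n : ℝ) + 1))) (fun t ht => by
          have ht' := hspec H _ _ _ π t ht
          have a1 := (abs_lt.mp (hp n t ht')).1
          have a2 : t - c ≤ max (t - c) 0 := le_max_left _ _
          simp only [Polynomial.eval_add, Polynomial.eval_sub, Polynomial.eval_X,
            Polynomial.eval_C]
          linarith) ξ
      rw [map_add, map_sub, Polynomial.aeval_X, Polynomial.aeval_C, add_apply,
        sub_apply, inner_add_right, inner_sub_right, Complex.add_re, Complex.sub_re,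
        Algebra.algebraMap_eq_smul_one] at h3
      have h4 : (inner ℂ ξ (((c + 1 / ((n : ℝ) + 1)) • (1 : H →L[ℂ] H)) ξ)).re =
          (c + 1 / ((n : ℝ) + 1)) * ‖ξ‖ ^ 2 := by
        have : ((c + 1 / ((n : ℝ) + 1)) • (1 : H →L[ℂ] H)) ξ =
            (((c + 1 / ((n : ℝ) + 1) : ℝ)) : ℂ) • ξ := by
          rw [smul_apply]
          simp only [one_apply_eq_self]
          rw [Complex.coe_smul]
        rw [this, inner_smul_right, inner_self_eq_norm_sq_to_K]
        have h7 : (((c + 1 / ((n : ℝ) + 1) : ℝ)) : ℂ) * ((‖ξ‖ : ℝ) : ℂ) ^ 2 =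
          (((c + 1 / ((n : ℝ) + 1)) * ‖ξ‖ ^ 2 : ℝ) : ℂ) := by push_cast; ring
        exact (congrArg Complex.re h7).trans (Complex.ofReal_re _)
      linarith
    have h5 : Tendsto (fun n : ℕ => (inner ℂ ξ (repAlg π f ξ)).re -
        (c + 1 / ((n : ℝ) + 1)) * ‖ξ‖ ^ 2) atTop
        (𝓝 ((inner ℂ ξ (repAlg π f ξ)).re - (c + 0) * ‖ξ‖ ^ 2)) := by
      refine Tendsto.sub tendsto_const_nhds (Tendsto.mul_const _ (Tendsto.add tendsto_const_nhds ?_))
      exact tendsto_one_div_add_atTop_nhds_zero_nat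
    have h6 := le_of_tendsto_of_tendsto' h5 h1 h2
    intro h0
    rw [h0, add_zero, Complex.zero_re] at h6
    linarith

end Pool.Agent.Lib.MP_f0f681_an
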