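import Mathlib
import Pool.Agent.Lib.MP_f0f681_an.FunctionalCalculus

open scoped ComplexConjugate ENNReal

namespace Pool.Agent.Lib.MP_f0f681_an

universe u

/-- square summable functions -/
abbrev L2 (α : Type u) : Type u := lp (fun _ : α => ℂ) 2

section perm

variable {α β : Type u}

theorem memℓp_comp_equiv (e : β ≃ α) {v : α → ℂ} (hv : Memℓp v 2) :
    Memℓp (fun b => v (e b)) 2 := by
  have h2 : (0 : ℝ) < (2 : ℝ≥0∞).toReal := by norm_num
  rw [memℓp_gen_iff h2] at hv ⊢
  exact (Equiv.summable_iff e).mpr hv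

/-- The unitary between `ℓ²` spaces given by a bijection. -/
noncomputable def permIso (e : α ≃ β) : L2 α ≃ₗᵢ[ℂ] L2 β where
  toFun v := ⟨fun b => v (e.symm b), memℓp_comp_equiv e.symm (lp.memℓp v)⟩
  invFun v := ⟨fun a => v (e a), memℓp_comp_equiv e (lp.memℓp v)⟩
  map_add' v w := by ext b; rfl
  map_smul' c v := by ext b; rfl
  left_inv v := by ext a; simp
  right_inv v := by ext b; simp
  norm_map' v := by
    have h2 : (0 : ℝ) < (2 : ℝ≥0∞).toReal := by norm_num
    rw [lp.norm_eq_tsum_rpow h2, lp.norm_eq_tsum_rpow h2]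
    congr 1
    exact Equiv.tsum_eq e.symm (fun a => ‖v a‖ ^ (2 : ℝ≥0∞).toReal)

@[simp]
theorem permIso_apply (e : α ≃ β) (v : L2 α) (b : β) : permIso e v b = v (e.symm b) := rfl

end perm

variable {G : Type u} [Group G]

/-- The left regular representation of `G` on `ℓ²(G)`: `(λ(g) v)(h) = v(g⁻¹ h)`. -/
noncomputable def regRep (G : Type u) [Group G] : G →* unitary (L2 G →L[ℂ] L2 G) :=
  (Unitary.linearIsometryEquiv (𝕜 := ℂ) (H := L2 G)).symm.toMonoidHom.comp
    { toFun := fun g => permIso (Equiv.mulLeft g)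
      map_one' := by
        ext v h
        change v _ = v _
        simp
      map_mul' := by
        intro a b
        ext v h
        change v _ = v _
        simp [mul_assoc] }

theorem regRep_apply (g : G) (v : L2 G) (h : G) :
    ((regRep G g : L2 G →L[ℂ] L2 G) v) h = v (g⁻¹ * h) := rfl

/-- Every square summable function is a coefficient of the regular representation. -/
theorem exists_coeff_regRep (φ : WeakDual ℂ (FullCStar G)) (h : Memℓp (toFunction φ) 2) :
    ∃ α β : L2 G, WeakDual.toStrongDual φ = coeffFunctional (regRep G) α β := by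
  classical
  let w : L2 G := ⟨toFunction φ, h⟩
  refine ⟨lp.single 2 1 (1 : ℂ), star w, ?_⟩
  apply ext_of_delta
  intro g
  rw [coeffFunctional_delta]
  have h1 : ((regRep G g : L2 G →L[ℂ] L2 G) (lp.single 2 1 (1 : ℂ))) =
      (lp.single 2 g (1 : ℂ) : L2 G) := by
    ext k
    rw [regRep_apply, lp.single_apply, lp.single_apply]
    by_cases hk : k = g
    · subst hk; simp
    · have : g⁻¹ * k ≠ 1 := by
        intro h; apply hk; rw [inv_mul_eq_one] at h; exact h.symm
      rw [Pi.single_eq_of_ne this, Pi.single_eq_of_ne hk]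
  rw [h1, lp.inner_single_right]
  simp [w]
  rfl

end Pool.Agent.Lib.MP_f0f681_an
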