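import Mathlib
import Pool.Agent.Lib.MP_f0f681_an.Regular

open scoped ComplexConjugate ENNReal

namespace Pool.Agent.Lib.MP_f0f681_an

universe u

section lp

variable {α : Type u}

theorem memℓp_two_four {v : α → ℂ} (h : Memℓp v 2) : Memℓp v 4 :=
  h.of_exponent_ge (by norm_num)

theorem memℓp_comp_inj {β : Type u} {p : ℝ≥0∞} (hp : 0 < p.toReal) {i : β → α}
    (hi : Function.Injective i) {v : α → ℂ} (hv : Memℓp v p) : Memℓp (fun b => v (i b)) p := by
  rw [memℓp_gen_iff hp] at hv ⊢
  exact hv.comp_injective hi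

theorem memℓp_mul {v w : α → ℂ} (hv : Memℓp v 4) (hw : Memℓp w 4) : Memℓp (v * w) 2 := by
  have h4 : (0 : ℝ) < (4 : ℝ≥0∞).toReal := by norm_num
  have h2 : (0 : ℝ) < (2 : ℝ≥0∞).toReal := by norm_num
  rw [memℓp_gen_iff h4] at hv hw
  rw [memℓp_gen_iff h2]
  refine Summable.of_nonneg_of_le (fun i => by positivity) (fun i => ?_) ((hv.add hw).mul_left (1/2))
  have e4 : (4 : ℝ≥0∞).toReal = ((4 : ℕ) : ℝ) := by norm_num
  have e2 : (2 : ℝ≥0∞).toReal = ((2 : ℕ) : ℝ) := by norm_num
  rw [e4, e2, Real.rpow_natCast, Real.rpow_natCast, Real.rpow_natCast, Pi.mul_apply, norm_mul]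
  nlinarith [sq_nonneg (‖v i‖ ^ 2 - ‖w i‖ ^ 2)]

end lp

variable {G : Type u} [Group G]

/-- The algebra of all functions `v + c` where `c` is a constant, `v` is in `ℓ⁴(G)` and
`v(z ·) - ω v` is in `ℓ²(G)`. -/
noncomputable def twistedAlgebra (z : G) (ω : ℂ) : Subalgebra ℂ (G → ℂ) where
  carrier := {u | ∃ (c : ℂ) (v : G → ℂ), (∀ g, u g = v g + c) ∧ Memℓp v 4 ∧
    Memℓp (fun g => v (z * g) - ω * v g) 2}
  mul_mem' := by
    rintro a b ⟨c, v, ha, hv4, hv2⟩ ⟨d, w, hb, hw4, hw2⟩
    have hvw := memℓp_mul hv4 hw4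
    refine ⟨c * d, fun g => v g * w g + (d * v g + c * w g), ?_, ?_, ?_⟩
    · intro g
      rw [Pi.mul_apply, ha, hb]; ring
    · exact (memℓp_two_four hvw).add ((hv4.const_mul d).add (hw4.const_mul c))
    · have h2 : (0 : ℝ) < (2 : ℝ≥0∞).toReal := by norm_num
      have h1 := memℓp_comp_inj h2 (mul_right_injective z) hvw
      have h3 := (h1.sub (hvw.const_mul ω)).add ((hv2.const_mul d).add (hw2.const_mul c))
      convert h3 using 1
      funext g
      simp only [Pi.add_apply, Pi.sub_apply, Pi.mul_apply]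
      ring
  add_mem' := by
    rintro a b ⟨c, v, ha, hv4, hv2⟩ ⟨d, w, hb, hw4, hw2⟩
    refine ⟨c + d, fun g => v g + w g, ?_, hv4.add hw4, ?_⟩
    · intro g
      rw [Pi.add_apply, ha, hb]; ring
    · convert hv2.add hw2 using 1
      funext g
      simp only [Pi.add_apply]
      ring
  algebraMap_mem' := by
    intro r
    refine ⟨r, fun _ => 0, ?_, zero_mem_ℓp', ?_⟩
    · intro g
      simp
    · simpa using (zero_mem_ℓp' : Memℓp (fun _ : G => (0 : ℂ)) 2)

theorem mem_twistedAlgebra (z : G) (ω : ℂ) (u : G → ℂ) :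
    u ∈ twistedAlgebra z ω ↔ ∃ (c : ℂ) (v : G → ℂ), (∀ g, u g = v g + c) ∧ Memℓp v 4 ∧
    Memℓp (fun g => v (z * g) - ω * v g) 2 := Iff.rfl

theorem isTranslationInvariant_twistedAlgebra (z : G) (hz : ∀ g, z * g = g * z) (ω : ℂ) :
    IsTranslationInvariant (twistedAlgebra z ω : Set (G → ℂ)) := by
  have h2 : (0 : ℝ) < (2 : ℝ≥0∞).toReal := by norm_num
  have h4 : (0 : ℝ) < (4 : ℝ≥0∞).toReal := by norm_num
  rintro f ⟨c, v, ha, hv4, hv2⟩ s
  constructor
  · refine ⟨c, fun g => v (s * g), fun g => ha _, memℓp_comp_inj h4 (mul_right_injective s) hv4, ?_⟩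
    have := memℓp_comp_inj h2 (mul_right_injective s) hv2
    convert this using 1
    funext g
    change v (s * (z * g)) - ω * v (s * g) = v (z * (s * g)) - ω * v (s * g)
    rw [← mul_assoc, ← hz s, mul_assoc]
  · refine ⟨c, fun g => v (g * s), fun g => ha _, memℓp_comp_inj h4 (mul_left_injective s) hv4, ?_⟩
    have := memℓp_comp_inj h2 (mul_left_injective s) hv2
    convert this using 1
    funext g
    change v (z * g * s) - ω * v (g * s) = v (z * (g * s)) - ω * v (g * s)
    rw [mul_assoc]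

theorem eval_comb (φ : WeakDual ℂ (FullCStar G)) (T : FullCStar G →L[ℂ] FullCStar G) (ω : ℂ)
    (x : FullCStar G) : φ (x + (ω • T x + ω ^ 2 • T (T x))) =
      φ x + (ω * φ (T x) + ω ^ 2 * φ (T (T x))) := by
  rw [map_add, map_add, map_smul, map_smul, smul_eq_mul, smul_eq_mul]

theorem eval_of_precomp_eq {φ : WeakDual ℂ (FullCStar G)} {T : FullCStar G →L[ℂ] FullCStar G}
    {c : ℂ} (h : precomp T φ = c • φ) (y : FullCStar G) : φ (T y) = c * φ y := by
  rw [← precomp_apply, h]
  rfl

theorem sub_smul_eval (φ ψ : WeakDual ℂ (FullCStar G)) (c : ℂ) (x : FullCStar G) :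
    (φ - c • ψ) x = φ x - c * ψ x := rfl

theorem toFunction_sub_smul (φ ψ : WeakDual ℂ (FullCStar G)) (c : ℂ) (g : G) :
    toFunction (φ - c • ψ) g = toFunction φ g - c * toFunction ψ g := rfl

/-- Functionals `χ` with `χ(z ·) - ω χ` square summable satisfy `χ(T x) = ω χ(x)` whenever `x` is
annihilated by the square summable functionals. -/
theorem eval_trans_of_memℓp (z : G) (ω : ℂ) (x : FullCStar G)
    (hx : ∀ φ : WeakDual ℂ (FullCStar G), Memℓp (toFunction φ) 2 → φ x = 0)
    (χ : WeakDual ℂ (FullCStar G))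
    (hχ : Memℓp (fun g => toFunction χ (z * g) - ω * toFunction χ g) 2) :
    χ (leftTrans z x) = ω * χ x := by
  have h := hx (precomp (leftTrans z) χ - ω • χ) (by
    have e : toFunction (precomp (leftTrans z) χ - ω • χ) =
        fun g => toFunction χ (z * g) - ω * toFunction χ g := by
      funext g
      rw [toFunction_sub_smul, toFunction_leftTrans]
    rw [e]; exact hχ)
  rw [sub_smul_eval, sub_eq_zero, precomp_apply] at h
  exact h

theorem eval_comb_eq_zero_of_mem (z : G) (ω : ℂ)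
    (hω : 1 + ω + ω ^ 2 = 0) (h3 : ω ^ 3 = 1) (x : FullCStar G)
    (hx : ∀ φ : WeakDual ℂ (FullCStar G), Memℓp (toFunction φ) 2 → φ x = 0)
    (φ : WeakDual ℂ (FullCStar G)) (hφ : toFunction φ ∈ twistedAlgebra z ω) :
    φ (x + (ω • leftTrans z x + ω ^ 2 • leftTrans z (leftTrans z x))) = 0 := by
  obtain ⟨c, v, hc, hv4, hv2⟩ := hφ
  -- subtract the constant
  have hψv : toFunction (φ - c • trivialFunctional) = v := by
    funext g
    rw [toFunction_sub_smul, toFunction_trivial, hc g, Pi.one_apply]; ring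
  obtain ⟨ψ, hψ⟩ : ∃ ψ : WeakDual ℂ (FullCStar G), ψ = φ - c • trivialFunctional := ⟨_, rfl⟩
  rw [← hψ] at hψv
  have h1 : ψ (leftTrans z x) = ω * ψ x :=
    eval_trans_of_memℓp z ω x hx ψ (by rw [hψv]; exact hv2)
  have h2 : ψ (leftTrans z (leftTrans z x)) = ω * ψ (leftTrans z x) := by
    have hp2 : (0 : ℝ) < (2 : ℝ≥0∞).toReal := by norm_num
    have h6 := memℓp_comp_inj (v := fun g => v (z * g) - ω * v g) (i := fun g => z * g) hp2
      (mul_right_injective z) hv2
    have h5 := eval_trans_of_memℓp z ω x hx (precomp (leftTrans z) ψ) (by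
      rw [toFunction_leftTrans, hψv]
      exact h6)
    rw [precomp_apply, precomp_apply] at h5
    exact h5
  have h0 : ψ (x + (ω • leftTrans z x + ω ^ 2 • leftTrans z (leftTrans z x))) = 0 := by
    rw [eval_comb, h2, h1]
    have : ψ x + (ω * (ω * ψ x) + ω ^ 2 * (ω * (ω * ψ x))) =
        (1 + ω ^ 2 + ω * ω ^ 3) * ψ x := by ring
    rw [this, h3]
    have : (1 + ω ^ 2 + ω * 1) = 1 + ω + ω ^ 2 := by ring
    rw [this, hω, zero_mul]
  have ht : (trivialFunctional (G := G))
      (x + (ω • leftTrans z x + ω ^ 2 • leftTrans z (leftTrans z x))) = 0 := by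
    have hT1 : precomp (leftTrans z) (trivialFunctional (G := G)) =
        (1 : ℂ) • trivialFunctional := by
      apply toFunction_injective
      rw [toFunction_leftTrans, toFunction_smul, toFunction_trivial, one_smul]
      rfl
    rw [eval_comb, eval_of_precomp_eq hT1 (leftTrans z x), eval_of_precomp_eq hT1 x]
    have : trivialFunctional x + (ω * (1 * trivialFunctional x) +
        ω ^ 2 * (1 * (1 * trivialFunctional x))) =
      (1 + ω + ω ^ 2) * (trivialFunctional (G := G)) x := by ring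
    rw [this, hω, zero_mul]
  rw [hψ, sub_smul_eval, ht, mul_zero, sub_zero] at h0
  exact h0

/-- **Abstract counterexample.**  Let `z` be central in `G`, `ω` a primitive third root of unity,
`x` an element of `C*(G)` which is annihilated by all square summable functionals, `f` a function
in `B(G) ∩ ℓ⁴(G)` with `f(z g) = ω f(g)`, such that the conjugate of `f` is in `B(G)` but does not
annihilate `x`.  Then `B(G)` has a weak*-closed translation invariant unital subalgebra which
contains `f` but not its conjugate. -/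
theorem abstract_counterexample (z : G) (hz : ∀ g, z * g = g * z) (ω : ℂ)
    (hω : 1 + ω + ω ^ 2 = 0) (x : FullCStar G)
    (hx : ∀ φ : WeakDual ℂ (FullCStar G), Memℓp (toFunction φ) 2 → φ x = 0)
    (θ' θ : WeakDual ℂ (FullCStar G)) (h4 : Memℓp (toFunction θ') 4)
    (hzθ : ∀ g, toFunction θ' (z * g) = ω * toFunction θ' g)
    (hconj : ∀ g, toFunction θ g = conj (toFunction θ' g)) (hθx : θ x ≠ 0) :
    ∃ B : Subalgebra ℂ (G → ℂ), (B : Set (G → ℂ)) ⊆ FourierStieltjes G ∧
      IsWeakStarClosed (B : Set (G → ℂ)) ∧ IsTranslationInvariant (B : Set (G → ℂ)) ∧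
      ∃ f ∈ B, (fun g => conj (f g)) ∉ B := by
  refine ⟨weakStarClosure (twistedAlgebra z ω), weakStarClosure_subset _,
    isWeakStarClosed_weakStarClosure _, isTranslationInvariant_weakStarClosure _
      (isTranslationInvariant_twistedAlgebra z hz ω), toFunction θ', ?_, ?_⟩
  · rw [mem_weakStarClosure]
    apply subset_closure
    refine ⟨0, toFunction θ', fun g => by simp, h4, ?_⟩
    have : (fun g => toFunction θ' (z * g) - ω * toFunction θ' g) = fun _ => 0 := by
      funext g; rw [hzθ, sub_self]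
    rw [this]
    exact zero_mem_ℓp'
  · intro hmem
    have h3 : ω ^ 3 = 1 := by
      have : ω ^ 3 - 1 = (ω - 1) * (1 + ω + ω ^ 2) := by ring
      rw [hω, mul_zero, sub_eq_zero] at this
      exact this
    have hnorm : ‖ω‖ = 1 := by
      have : ‖ω‖ ^ 3 = 1 := by rw [← norm_pow, h3, norm_one]
      exact (pow_eq_one_iff_of_nonneg (norm_nonneg _) (by norm_num)).mp this
    have hωω : conj ω * ω = 1 := by
      rw [mul_comm, Complex.mul_conj, Complex.normSq_eq_norm_sq, hnorm]; norm_num
    have hconjω : conj ω = ω ^ 2 := by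
      calc conj ω = conj ω * ω ^ 3 := by rw [h3, mul_one]
        _ = (conj ω * ω) * ω ^ 2 := by ring
        _ = ω ^ 2 := by rw [hωω, one_mul]
    have hfun : (fun g => conj (toFunction θ' g)) = toFunction θ := by
      funext g; rw [hconj]
    rw [hfun] at hmem
    have hzero : θ (x + (ω • leftTrans z x + ω ^ 2 • leftTrans z (leftTrans z x))) = 0 :=
      eq_zero_of_mem_weakStarClosure (twistedAlgebra z ω) _
        (fun φ hφ => eval_comb_eq_zero_of_mem z ω hω h3 x hx φ hφ) θ hmem
    have hθT : precomp (leftTrans z) θ = (ω ^ 2) • θ := by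
      apply toFunction_injective
      rw [toFunction_leftTrans, toFunction_smul]
      funext g
      rw [Pi.smul_apply, hconj, hzθ, map_mul, hconjω, hconj, smul_eq_mul]
    rw [eval_comb, eval_of_precomp_eq hθT (leftTrans z x), eval_of_precomp_eq hθT x] at hzero
    have : θ x + (ω * (ω ^ 2 * θ x) + ω ^ 2 * (ω ^ 2 * (ω ^ 2 * θ x))) =
        (1 + ω ^ 3 + (ω ^ 3) ^ 2) * θ x := by ring
    rw [this, h3] at hzero
    apply hθx
    have h3' : (1 + 1 + (1 : ℂ) ^ 2) ≠ 0 := by norm_num
    exact (mul_eq_zero.mp hzero).resolve_left h3'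

end Pool.Agent.Lib.MP_f0f681_an
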