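import Mathlib
import Pool.Agent.Lib.MP_f0f681_an.Abstract

open scoped ComplexConjugate ENNReal

namespace Pool.Agent.Lib.MP_f0f681_an

section words

variable {α : Type} [DecidableEq α]

/-- The inverse letter. -/
def linv (l : α × Bool) : α × Bool := (l.1, !l.2)

omit [DecidableEq α] in
@[simp] theorem linv_linv (l : α × Bool) : linv (linv l) = l := by
  simp [linv]

omit [DecidableEq α] in
theorem linv_ne (l : α × Bool) : linv l ≠ l := by
  intro h
  have := congrArg Prod.snd h
  simp [linv] at this

/-- The group element given by a letter. -/
def letter (l : α × Bool) : FreeGroup α := FreeGroup.mk [l]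

omit [DecidableEq α] in
theorem letter_linv (l : α × Bool) : letter (linv l) = (letter l)⁻¹ := by
  simp [letter, linv, FreeGroup.invRev]

theorem toWord_letter_mul (l : α × Bool) (γ : FreeGroup α) :
    (letter l * γ).toWord =
      if γ.toWord.head? = some (linv l) then γ.toWord.tail else l :: γ.toWord := by
  have h1 : (letter l * γ).toWord = FreeGroup.reduce (l :: γ.toWord) := by
    have : letter l * γ = FreeGroup.mk (l :: γ.toWord) := by
      conv_lhs => rw [← FreeGroup.mk_toWord (x := γ)]
      rw [letter, FreeGroup.mul_mk]
      rfl
    rw [this, FreeGroup.toWord_mk]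
  rw [h1, FreeGroup.reduce.cons, FreeGroup.reduce_toWord]
  cases h : γ.toWord with
  | nil => simp
  | cons hd tl =>
    simp only [List.head?_cons, List.tail_cons, Option.some.injEq]
    by_cases h2 : hd = linv l
    · rw [if_pos h2]
      subst h2
      simp [linv]
    · rw [if_neg h2, if_neg]
      intro h3
      apply h2
      obtain ⟨a, b⟩ := h3
      ext
      · exact a.symm
      · simp [linv, b]

theorem toWord_letter (l : α × Bool) : (letter l).toWord = [l] := by
  rw [letter, FreeGroup.toWord_mk, FreeGroup.reduce_singleton]

theorem letter_ne_one (l : α × Bool) : letter l ≠ 1 := by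
  intro h
  have := congrArg FreeGroup.toWord h
  rw [toWord_letter, FreeGroup.toWord_one] at this
  simp at this

/-- length of a group element -/
def len (γ : FreeGroup α) : ℕ := γ.toWord.length

theorem len_letter_mul_of_ne (l : α × Bool) (γ : FreeGroup α)
    (h : γ.toWord.head? ≠ some (linv l)) : len (letter l * γ) = len γ + 1 := by
  unfold len
  rw [toWord_letter_mul, if_neg h, List.length_cons]

theorem len_letter_mul_of_eq (l : α × Bool) (γ : FreeGroup α)
    (h : γ.toWord.head? = some (linv l)) : len γ = len (letter l * γ) + 1 := by
  unfold len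
  rw [toWord_letter_mul, if_pos h, List.length_tail]
  have : γ.toWord ≠ [] := by
    intro h0; rw [h0] at h; simp at h
  have := List.length_pos_of_ne_nil this
  omega

theorem head_letter_mul_of_ne (l : α × Bool) (γ : FreeGroup α)
    (h : γ.toWord.head? ≠ some (linv l)) : (letter l * γ).toWord.head? = some l := by
  rw [toWord_letter_mul, if_neg h, List.head?_cons]

theorem isChain_of_toWord (γ : FreeGroup α) : FreeGroup.IsReduced γ.toWord :=
  FreeGroup.isReduced_toWord

end words

section summable

variable {α : Type} [Fintype α]

theorem summable_list_pow {q : ℝ} (hq : 0 ≤ q) (h : (Fintype.card α : ℝ) * q < 1) :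
    Summable fun L : List α => q ^ L.length := by
  rw [← (List.equivSigmaTuple (α := α)).symm.summable_iff]
  rw [summable_sigma_of_nonneg (fun x => by simp only [Function.comp_apply]; positivity)]
  have h1 : ∀ (n : ℕ) (v : Fin n → α),
      ((fun L : List α => q ^ L.length) ∘ (List.equivSigmaTuple (α := α)).symm) ⟨n, v⟩ = q ^ n := by
    intro n v
    simp [List.equivSigmaTuple]
  constructor
  · intro n
    exact (hasSum_fintype _).summable
  · simp only [h1, tsum_fintype, Finset.sum_const, Finset.card_univ, Fintype.card_pi,
      Finset.prod_const, Fintype.card_fin, nsmul_eq_mul, Nat.cast_pow]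
    have : ∀ n : ℕ, (Fintype.card α : ℝ) ^ n * q ^ n = ((Fintype.card α : ℝ) * q) ^ n := by
      intro n; rw [mul_pow]
    simp only [this]
    exact summable_geometric_of_lt_one (by positivity) h

theorem summable_freeGroup_pow [DecidableEq α] {q : ℝ} (hq : 0 ≤ q)
    (h : (2 * Fintype.card α : ℝ) * q < 1) :
    Summable fun γ : FreeGroup α => q ^ len γ := by
  have h1 : Summable fun L : List (α × Bool) => q ^ L.length := by
    apply summable_list_pow hq
    rw [Fintype.card_prod, Fintype.card_bool]
    push_cast
    linarith
  exact h1.comp_injective FreeGroup.toWord_injective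

end summable

end Pool.Agent.Lib.MP_f0f681_an
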