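import Mathlib
import Pool.Agent.Lib.MP_f0f681_an.Words

open scoped ComplexConjugate ENNReal

namespace Pool.Agent.Lib.MP_f0f681_an

variable {α : Type} [DecidableEq α] {C : Type} [Group C]

/-- A letter, as an element of `F × C`. -/
def aelt (C : Type) [Group C] (l : α × Bool) : FreeGroup α × C := (letter l, 1)

omit [DecidableEq α] in
theorem aelt_linv (l : α × Bool) : aelt C (linv l) = (aelt C l)⁻¹ := by
  simp [aelt, letter_linv]

/-- The weight `t^(-|g|)`. -/
noncomputable def wt (t : ℝ) (g : FreeGroup α × C) : ℝ := (t⁻¹) ^ (len g.1)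

/-- The ratio of weights of `l⁻¹ g` and `g`. -/
noncomputable def ratio (t : ℝ) (l : α × Bool) (g : FreeGroup α × C) : ℝ :=
  wt t (aelt C (linv l) * g) / wt t g

omit [Group C] in
theorem wt_pos {t : ℝ} (ht : 0 < t) (g : FreeGroup α × C) : 0 < wt t g := by
  unfold wt; positivity

theorem ratio_pos {t : ℝ} (ht : 0 < t) (l : α × Bool) (g : FreeGroup α × C) :
    0 < ratio t l g := div_pos (wt_pos ht _) (wt_pos ht _)

theorem ratio_eq_of_head {t : ℝ} (ht : 0 < t) (l : α × Bool) (g : FreeGroup α × C)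
    (h : g.1.toWord.head? = some l) : ratio t l g = t := by
  unfold ratio wt
  have h1 : (aelt C (linv l) * g).1 = letter (linv l) * g.1 := rfl
  rw [h1, len_letter_mul_of_eq (linv l) g.1 (by rw [linv_linv]; exact h), pow_succ]
  have : (t⁻¹) ^ len (letter (linv l) * g.1) ≠ 0 := by positivity
  field_simp

theorem ratio_eq_of_not_head {t : ℝ} (ht : 0 < t) (l : α × Bool) (g : FreeGroup α × C)
    (h : g.1.toWord.head? ≠ some l) : ratio t l g = t⁻¹ := by
  unfold ratio wt
  have h1 : (aelt C (linv l) * g).1 = letter (linv l) * g.1 := rfl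
  rw [h1, len_letter_mul_of_ne (linv l) g.1 (by rw [linv_linv]; exact h), pow_succ]
  have : (t⁻¹) ^ len g.1 ≠ 0 := by positivity
  field_simp

theorem ratio_le {t : ℝ} (ht : 1 ≤ t) (l : α × Bool) (g : FreeGroup α × C) :
    ratio t l g ≤ t := by
  have h0 : 0 < t := by linarith
  by_cases h : g.1.toWord.head? = some l
  · rw [ratio_eq_of_head h0 l g h]
  · rw [ratio_eq_of_not_head h0 l g h]
    exact (inv_le_one_of_one_le₀ ht).trans ht

theorem sum_ratio_le [Fintype α] {t : ℝ} (ht : 1 ≤ t) (g : FreeGroup α × C) :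
    ∑ l : α × Bool, ratio t l g ≤ t + (2 * Fintype.card α) * t⁻¹ := by
  have h0 : 0 < t := by linarith
  have h1 : ∀ l : α × Bool, ratio t l g ≤
      t⁻¹ + (if g.1.toWord.head? = some l then t else 0) := by
    intro l
    by_cases h : g.1.toWord.head? = some l
    · rw [ratio_eq_of_head h0 l g h, if_pos h]
      have : 0 < t⁻¹ := by positivity
      linarith
    · rw [ratio_eq_of_not_head h0 l g h, if_neg h]
      linarith
  refine (Finset.sum_le_sum fun l _ => h1 l).trans ?_
  rw [Finset.sum_add_distrib, Finset.sum_const, Finset.card_univ, Fintype.card_prod,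
    Fintype.card_bool, nsmul_eq_mul]
  have h2 : ∑ l : α × Bool, (if g.1.toWord.head? = some l then t else 0) ≤ t := by
    cases hh : g.1.toWord.head? with
    | none => simp [h0.le]
    | some a =>
      simp only [Option.some.injEq]
      rw [Finset.sum_ite_eq]
      simp
  push_cast
  nlinarith

theorem ratio_mul_ratio {t : ℝ} (ht : 0 < t) (l : α × Bool) (g : FreeGroup α × C) :
    ratio t (linv l) (aelt C (linv l) * g) = (ratio t l g)⁻¹ := by
  unfold ratio
  rw [linv_linv, ← mul_assoc, aelt_linv, mul_inv_cancel, one_mul, inv_div]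

omit [DecidableEq α] [Group C] in
theorem summable_sq (v : L2 (FreeGroup α × C)) : Summable fun g => ‖v g‖ ^ 2 := by
  have h := (lp.memℓp v).summable (by norm_num : (0 : ℝ) < (2 : ℝ≥0∞).toReal)
  refine h.congr fun g => ?_
  norm_num

omit [DecidableEq α] [Group C] in
theorem norm_sq_eq (v : L2 (FreeGroup α × C)) : ‖v‖ ^ 2 = ∑' g, ‖v g‖ ^ 2 := by
  have h := lp.norm_rpow_eq_tsum (by norm_num : (0 : ℝ) < (2 : ℝ≥0∞).toReal) v
  have e : (2 : ℝ≥0∞).toReal = ((2 : ℕ) : ℝ) := by norm_num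
  rw [e, Real.rpow_natCast] at h
  rw [h]
  refine tsum_congr fun g => ?_
  rw [Real.rpow_natCast]

theorem summable_ratio {t : ℝ} (ht : 1 ≤ t) (l : α × Bool) (v : L2 (FreeGroup α × C)) :
    Summable fun g => ratio t l g * ‖v g‖ ^ 2 := by
  have h0 : 0 < t := by linarith
  refine Summable.of_nonneg_of_le (fun g => ?_) (fun g => ?_) ((summable_sq v).mul_left t)
  · have := ratio_pos (C := C) h0 l g; positivity
  · exact mul_le_mul_of_nonneg_right (ratio_le ht l g) (by positivity)

theorem re_inner_le {t : ℝ} (ht : 1 ≤ t) (l : α × Bool) (v : L2 (FreeGroup α × C)) :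
    (inner ℂ v ((regRep (FreeGroup α × C) (aelt C l) : L2 _ →L[ℂ] L2 _) v)).re ≤
      1 / 2 * (∑' g, ratio t l g * ‖v g‖ ^ 2) + 1 / 2 * (∑' g, ratio t (linv l) g * ‖v g‖ ^ 2) := by
  have h0 : 0 < t := by linarith
  set T := (regRep (FreeGroup α × C) (aelt C l) :
    L2 (FreeGroup α × C) →L[ℂ] L2 (FreeGroup α × C)) with hT
  have hs := lp.hasSum_inner (𝕜 := ℂ) v (T v)
  have hs' := Complex.hasSum_re hs
  rw [← hs'.tsum_eq]
  have e2 : ∑' g, ratio t (linv l) g * ‖v g‖ ^ 2 =
      ∑' g, (ratio t l g)⁻¹ * ‖v (aelt C (linv l) * g)‖ ^ 2 := by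
    rw [← Equiv.tsum_eq (Equiv.mulLeft (aelt C (linv l)))]
    refine tsum_congr fun g => ?_
    rw [Equiv.coe_mulLeft, ratio_mul_ratio h0]
  have s2 : Summable fun g => (ratio t l g)⁻¹ * ‖v (aelt C (linv l) * g)‖ ^ 2 := by
    have := (Equiv.summable_iff (Equiv.mulLeft (aelt C (linv l)))).mpr
      (summable_ratio ht (linv l) v)
    refine this.congr fun g => ?_
    rw [Function.comp_apply, Equiv.coe_mulLeft, ratio_mul_ratio h0]
  rw [e2, ← tsum_mul_left, ← tsum_mul_left, ← ((summable_ratio ht l v).mul_left _).tsum_add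
    (s2.mul_left _)]
  refine hs'.summable.tsum_le_tsum (fun g => ?_)
    (((summable_ratio ht l v).mul_left _).add (s2.mul_left _))
  have hv : (T v) g = v (aelt C (linv l) * g) := by
    rw [hT, regRep_apply, aelt_linv]
  rw [hv]
  refine (Complex.re_le_norm _).trans ((norm_inner_le_norm _ _).trans ?_)
  have hr := ratio_pos (C := C) h0 l g
  have hri : ratio t l g * (ratio t l g)⁻¹ = 1 := mul_inv_cancel₀ hr.ne'
  set a := ‖v g‖
  set b := ‖v (aelt C (linv l) * g)‖
  set r := ratio t l g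
  -- a * b ≤ (r a² + r⁻¹ b²)/2
  have h1 : 0 ≤ r⁻¹ * (r * a - b) ^ 2 := by positivity
  have h2 : r⁻¹ * (r * a - b) ^ 2 = (r * r⁻¹) * (r * a ^ 2) - 2 * (r * r⁻¹) * (a * b) +
      r⁻¹ * b ^ 2 := by ring
  rw [h2, hri] at h1
  linarith

theorem re_inner_sum_le [Fintype α] {t : ℝ} (ht : 1 ≤ t) (v : L2 (FreeGroup α × C)) :
    (inner ℂ v ((∑ l : α × Bool, (regRep (FreeGroup α × C) (aelt C l) : L2 _ →L[ℂ] L2 _)) v)).re ≤
      (t + (2 * Fintype.card α) * t⁻¹) * ‖v‖ ^ 2 := by
  have h0 : 0 < t := by linarith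
  rw [sum_apply, inner_sum, Complex.re_sum]
  refine (Finset.sum_le_sum fun l _ => re_inner_le ht l v).trans ?_
  rw [Finset.sum_add_distrib, ← Finset.mul_sum, ← Finset.mul_sum]
  have h1 : ∑ l : α × Bool, ∑' g : FreeGroup α × C, ratio t (linv l) g * ‖v g‖ ^ 2 =
      ∑ l : α × Bool, ∑' g : FreeGroup α × C, ratio t l g * ‖v g‖ ^ 2 := by
    refine Finset.sum_bijective linv ⟨?_, ?_⟩ (by simp) (fun l _ => rfl)
    · intro a b h
      rw [← linv_linv a, ← linv_linv b, h]
    · intro a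
      exact ⟨linv a, linv_linv a⟩
  rw [h1, ← add_mul]
  norm_num
  rw [← Summable.tsum_finsetSum (fun l _ => summable_ratio ht l v), norm_sq_eq, ← tsum_mul_left]
  refine Summable.tsum_le_tsum (fun g => ?_)
    (summable_sum fun l _ => summable_ratio ht l v) ((summable_sq v).mul_left _)
  rw [← Finset.sum_mul]
  exact mul_le_mul_of_nonneg_right (sum_ratio_le ht g) (by positivity)

end Pool.Agent.Lib.MP_f0f681_an
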