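import Mathlib
import Pool.Agent.Lib.MP_f0f681_an.SchurTest

open scoped ComplexConjugate ENNReal

namespace Pool.Agent.Lib.MP_f0f681_an

variable {α : Type} [DecidableEq α]

/-- unit vector at the identity -/
noncomputable def delOne (Γ : Type) [Group Γ] : L2 Γ := by
  classical exact lp.single 2 1 (1 : ℂ)

/-- The vector `5 δ_e - δ_x`. -/
noncomputable def uvec {Γ : Type} [Group Γ] (x : Γ) : L2 Γ := by
  classical exact (5 : ℂ) • lp.single 2 1 (1 : ℂ) - lp.single 2 x (1 : ℂ)

section
variable {Γ : Type} [Group Γ]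

theorem delOne_apply (g : Γ) [Decidable (g = 1)] : delOne Γ g = if g = 1 then 1 else 0 := by
  classical
  unfold delOne
  rw [lp.single_apply]
  by_cases h : g = 1
  · subst h; simp
  · rw [Pi.single_eq_of_ne h, if_neg h]

theorem norm_delOne : ‖delOne Γ‖ = 1 := by
  classical
  unfold delOne
  rw [lp.norm_single (by norm_num)]
  simp

theorem inner_delOne (v : L2 Γ) : inner ℂ (delOne Γ) v = v 1 := by
  classical
  unfold delOne
  rw [lp.inner_single_left]
  simp

theorem inner_uvec (x : Γ) (v : L2 Γ) : inner ℂ (uvec x) v = 5 * v 1 - v x := by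
  classical
  unfold uvec
  rw [inner_sub_left, inner_smul_left, lp.inner_single_left, lp.inner_single_left]
  have h5 : (starRingEnd ℂ) (5 : ℂ) = 5 := map_ofNat _ 5
  simp [h5]

theorem uvec_one (x : Γ) (hx : x ≠ 1) : uvec x (1 : Γ) = 5 := by
  classical
  unfold uvec
  have h1 : ((5 : ℂ) • (lp.single 2 (1 : Γ) (1 : ℂ) : L2 Γ) - (lp.single 2 x (1 : ℂ) : L2 Γ)) 1 =
    5 * (lp.single 2 (1 : Γ) (1 : ℂ) : L2 Γ) 1 - (lp.single 2 x (1 : ℂ) : L2 Γ) 1 := rfl
  rw [h1, lp.single_apply, lp.single_apply, Pi.single_eq_same, Pi.single_eq_of_ne hx.symm]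
  ring

theorem uvec_self (x : Γ) (hx : x ≠ 1) : uvec x x = -1 := by
  classical
  unfold uvec
  have h1 : ((5 : ℂ) • (lp.single 2 (1 : Γ) (1 : ℂ) : L2 Γ) - (lp.single 2 x (1 : ℂ) : L2 Γ)) x =
    5 * (lp.single 2 (1 : Γ) (1 : ℂ) : L2 Γ) x - (lp.single 2 x (1 : ℂ) : L2 Γ) x := rfl
  rw [h1, lp.single_apply, lp.single_apply, Pi.single_eq_same, Pi.single_eq_of_ne hx]
  ring

theorem uvec_other (x g : Γ) (hg : g ≠ 1) (hgx : g ≠ x) : uvec x g = 0 := by
  classical
  unfold uvec
  have h1 : ((5 : ℂ) • (lp.single 2 (1 : Γ) (1 : ℂ) : L2 Γ) - (lp.single 2 x (1 : ℂ) : L2 Γ)) g =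
    5 * (lp.single 2 (1 : Γ) (1 : ℂ) : L2 Γ) g - (lp.single 2 x (1 : ℂ) : L2 Γ) g := rfl
  rw [h1, lp.single_apply, lp.single_apply, Pi.single_eq_of_ne hgx, Pi.single_eq_of_ne hg]
  ring

theorem norm_uvec_sq (x : Γ) (hx : x ≠ 1) : ‖uvec x‖ ^ 2 = 26 := by
  have h1 : (inner ℂ (uvec x) (uvec x)) = ((26 : ℝ) : ℂ) := by
    rw [inner_uvec, uvec_one x hx, uvec_self x hx]; push_cast; norm_num
  have h2 := inner_self_eq_norm_sq_to_K (𝕜 := ℂ) (uvec x)
  rw [h1] at h2
  have h3 : ((26 : ℝ) : ℂ) = ((‖uvec x‖ ^ 2 : ℝ) : ℂ) := by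
    rw [h2]; push_cast; rfl
  exact (Complex.ofReal_injective h3).symm

/-- The reflection `v ↦ v - (1/13) ⟨u, v⟩ u`, where `u = 5 δ_e - δ_x`. -/
noncomputable def refl (x : Γ) : L2 Γ ≃ₗᵢ[ℂ] L2 Γ :=
  ((Submodule.span ℂ {uvec x})ᗮ).reflection

theorem refl_apply (x : Γ) (hx : x ≠ 1) (v : L2 Γ) (g : Γ) :
    refl x v g = v g - (1 / 13) * (5 * v 1 - v x) * uvec x g := by
  unfold refl
  rw [Submodule.reflection_orthogonal_apply, Submodule.reflection_singleton_apply, inner_uvec]
  have h1 := norm_uvec_sq x hx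
  have h2 : ((‖uvec x‖ : ℂ)) ^ 2 = 26 := by
    have : ((‖uvec x‖ ^ 2 : ℝ) : ℂ) = ((26 : ℝ) : ℂ) := by rw [h1]
    push_cast at this
    exact this
  have h3 : (-(2 • ((5 * v 1 - v x) / ((‖uvec x‖ : ℂ)) ^ 2) • uvec x - v) : L2 Γ) g =
    -(2 * ((5 * v 1 - v x) / ((‖uvec x‖ : ℂ)) ^ 2 * uvec x g) - v g) := by
    have e1 : (2 • ((5 * v 1 - v x) / ((‖uvec x‖ : ℂ)) ^ 2) • uvec x : L2 Γ) =
      (2 : ℂ) • (((5 * v 1 - v x) / ((‖uvec x‖ : ℂ)) ^ 2) • uvec x : L2 Γ) := by
      rw [two_smul, two_smul]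
    rw [e1]
    rfl
  refine h3.trans ?_
  rw [h2]
  ring

theorem refl_refl (x : Γ) (v : L2 Γ) : refl x (refl x v) = v :=
  Submodule.reflection_reflection _ v

end

/-- The unitary `v ↦ W (λ(x) v)`, with `W` the reflection. -/
noncomputable def genUnitary {Γ : Type} [Group Γ] (x : Γ) : unitary (L2 Γ →L[ℂ] L2 Γ) :=
  (Unitary.linearIsometryEquiv (𝕜 := ℂ) (H := L2 Γ)).symm (refl x * permIso (Equiv.mulLeft x))

section
variable {Γ : Type} [Group Γ]

theorem genUnitary_apply (x : Γ) (hx : x ≠ 1) (v : L2 Γ) (g : Γ) :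
    ((genUnitary x : L2 Γ →L[ℂ] L2 Γ) v) g =
      v (x⁻¹ * g) - (1 / 13) * (5 * v x⁻¹ - v 1) * uvec x g := by
  have h : ((genUnitary x : L2 Γ →L[ℂ] L2 Γ) v) g =
      refl x (permIso (Equiv.mulLeft x) v) g := rfl
  rw [h, refl_apply x hx, permIso_apply, permIso_apply, permIso_apply]
  simp

theorem genUnitary_inv_apply (x : Γ) (hx : x ≠ 1) (v : L2 Γ) (g : Γ) :
    (((genUnitary x)⁻¹ : unitary (L2 Γ →L[ℂ] L2 Γ)) : L2 Γ →L[ℂ] L2 Γ) v g =
      v (x * g) - (1 / 13) * (5 * v 1 - v x) * uvec x (x * g) := by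
  have h : (((genUnitary x)⁻¹ : unitary (L2 Γ →L[ℂ] L2 Γ)) : L2 Γ →L[ℂ] L2 Γ) v =
      (permIso (Equiv.mulLeft x)).symm (refl x v) := by
    have h1 : (genUnitary x)⁻¹ = (Unitary.linearIsometryEquiv (𝕜 := ℂ) (H := L2 Γ)).symm
        ((permIso (Equiv.mulLeft x))⁻¹ * (refl x)⁻¹) := by
      unfold genUnitary
      rw [← map_inv, mul_inv_rev]
    rw [h1]
    rfl
  rw [h]
  have h2 : (permIso (Equiv.mulLeft x)).symm (refl x v) g = refl x v (x * g) := rfl
  rw [h2, refl_apply x hx]

end

/-- The representation of the free group. -/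
noncomputable def haagerupRep (α : Type) [DecidableEq α] :
    FreeGroup α →* unitary (L2 (FreeGroup α) →L[ℂ] L2 (FreeGroup α)) :=
  FreeGroup.lift fun i => genUnitary (FreeGroup.of i)

theorem haagerupRep_letter_true (i : α) :
    haagerupRep α (letter (i, true)) = genUnitary (FreeGroup.of i) := by
  have : letter (i, true) = FreeGroup.of i := rfl
  rw [this]
  unfold haagerupRep
  rw [FreeGroup.lift_apply_of]

theorem haagerupRep_letter_false (i : α) :
    haagerupRep α (letter (i, false)) = (genUnitary (FreeGroup.of i))⁻¹ := by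
  have : letter (i, false) = (letter (i, true))⁻¹ := by
    rw [← letter_linv]; rfl
  rw [this, map_inv, haagerupRep_letter_true]

theorem act_one (a : α × Bool) (v : L2 (FreeGroup α)) (h : v (letter (linv a)) = 0) :
    ((haagerupRep α (letter a) : L2 (FreeGroup α) →L[ℂ] L2 (FreeGroup α)) v) 1 =
      (5 / 13) * v 1 := by
  obtain ⟨i, b⟩ := a
  have hx : FreeGroup.of i ≠ 1 := FreeGroup.of_ne_one i
  cases b with
  | true =>
    have e : letter (linv (i, true)) = (FreeGroup.of i)⁻¹ := by rw [letter_linv]; rfl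
    rw [e] at h
    rw [haagerupRep_letter_true, genUnitary_apply _ hx, mul_one, h, uvec_one _ hx]
    ring
  | false =>
    have e : letter (linv (i, false)) = FreeGroup.of i := rfl
    rw [e] at h
    rw [haagerupRep_letter_false, genUnitary_inv_apply _ hx, mul_one, h, uvec_self _ hx]
    ring

theorem act_other (a : α × Bool) (v : L2 (FreeGroup α)) (g : FreeGroup α) (hg : g ≠ 1)
    (hga : g ≠ letter a) :
    ((haagerupRep α (letter a) : L2 (FreeGroup α) →L[ℂ] L2 (FreeGroup α)) v) g =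
      v (letter (linv a) * g) := by
  obtain ⟨i, b⟩ := a
  have hx : FreeGroup.of i ≠ 1 := FreeGroup.of_ne_one i
  cases b with
  | true =>
    have e : letter (linv (i, true)) = (FreeGroup.of i)⁻¹ := by rw [letter_linv]; rfl
    have hga' : g ≠ FreeGroup.of i := hga
    rw [haagerupRep_letter_true, genUnitary_apply _ hx, e, uvec_other _ _ hg hga']
    ring
  | false =>
    have e : letter (linv (i, false)) = FreeGroup.of i := rfl
    have e' : letter (i, false) = (FreeGroup.of i)⁻¹ := by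
      rw [show ((i, false) : α × Bool) = linv (i, true) from rfl, letter_linv]; rfl
    rw [e'] at hga
    rw [haagerupRep_letter_false, genUnitary_inv_apply _ hx, e, uvec_other]
    · ring
    · intro h0
      apply hga
      rw [eq_comm, inv_eq_iff_mul_eq_one]
      exact h0
    · intro h0
      apply hg
      exact mul_eq_left.mp h0

theorem haagerup_aux (n : ℕ) : ∀ γ : FreeGroup α, len γ = n →
    ((haagerupRep α γ : L2 (FreeGroup α) →L[ℂ] L2 (FreeGroup α)) (delOne (FreeGroup α))) 1 =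
      (5 / 13) ^ n ∧ ∀ g : FreeGroup α, g ≠ 1 → g.toWord.head? ≠ γ.toWord.head? →
      ((haagerupRep α γ : L2 (FreeGroup α) →L[ℂ] L2 (FreeGroup α)) (delOne (FreeGroup α))) g = 0 := by
  induction n with
  | zero =>
    intro γ hγ
    have h0 : γ = 1 := by
      unfold len at hγ
      rw [List.length_eq_zero_iff, FreeGroup.toWord_eq_nil_iff] at hγ
      exact hγ
    subst h0
    rw [map_one]
    constructor
    · simp [delOne_apply]
    · intro g hg _
      simp [delOne_apply, hg]
  | succ n ih =>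
    intro γ hγ
    -- first letter
    obtain ⟨a, L, hL⟩ : ∃ a L, γ.toWord = a :: L := by
      cases h : γ.toWord with
      | nil => unfold len at hγ; rw [h] at hγ; simp at hγ
      | cons a L => exact ⟨a, L, rfl⟩
    set γ' := letter (linv a) * γ with hγ'
    have hγe : γ = letter a * γ' := by
      rw [hγ', letter_linv, mul_inv_cancel_left]
    have hhead : γ.toWord.head? = some (linv (linv a)) := by rw [hL, linv_linv]; rfl
    have hlen : len γ = len γ' + 1 := len_letter_mul_of_eq (linv a) γ hhead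
    have hlen' : len γ' = n := by omega
    have hne : γ'.toWord.head? ≠ some (linv a) := by
      intro h
      have := len_letter_mul_of_eq a γ' h
      rw [← hγe] at this
      omega
    obtain ⟨ih1, ih2⟩ := ih γ' hlen'
    set v := (haagerupRep α γ' : L2 (FreeGroup α) →L[ℂ] L2 (FreeGroup α))
      (delOne (FreeGroup α)) with hv
    have hmul : (haagerupRep α γ : L2 (FreeGroup α) →L[ℂ] L2 (FreeGroup α))
        (delOne (FreeGroup α)) =
        (haagerupRep α (letter a) : L2 (FreeGroup α) →L[ℂ] L2 (FreeGroup α)) v := by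
      rw [hv, hγe, map_mul]
      rfl
    rw [hmul]
    constructor
    · rw [act_one a v, ih1]
      · ring
      · apply ih2 _ (letter_ne_one _)
        rw [toWord_letter]
        exact fun h => hne h.symm
    · intro g hg hgh
      rw [hL] at hgh
      have hga : g ≠ letter a := by
        intro h
        apply hgh
        rw [h, toWord_letter]
        rfl
      rw [act_other a v g hg hga]
      have h1 : (letter (linv a) * g).toWord.head? = some (linv a) := by
        apply head_letter_mul_of_ne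
        rw [linv_linv]
        exact hgh
      apply ih2
      · intro h0
        rw [h0, FreeGroup.toWord_one] at h1
        simp at h1
      · rw [h1]
        exact fun h => hne h.symm

/-- **Haagerup's function** `(5/13)^{|γ|}` is a diagonal coefficient. -/
theorem haagerup_coeff (γ : FreeGroup α) :
    inner ℂ (delOne (FreeGroup α))
      ((haagerupRep α γ : L2 (FreeGroup α) →L[ℂ] L2 (FreeGroup α)) (delOne (FreeGroup α))) =
      (5 / 13 : ℂ) ^ len γ := by
  rw [inner_delOne]
  exact (haagerup_aux (len γ) γ rfl).1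

end Pool.Agent.Lib.MP_f0f681_an
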