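import Mathlib
import Pool.Agent.Lib.MP_f0f681_an.Haagerup

open scoped ComplexConjugate ENNReal

namespace Pool.Agent.Lib.MP_f0f681_an

section twist

variable {H : Type} [NormedAddCommGroup H] [InnerProductSpace ℂ H] [CompleteSpace H]
variable {Γ C : Type} [Group Γ] [Group C]

theorem smul_mem_unitary (c : Circle) (U : unitary (H →L[ℂ] H)) :
    (c : ℂ) • (U : H →L[ℂ] H) ∈ unitary (H →L[ℂ] H) := by
  rw [Unitary.mem_iff]
  have hc : conj (c : ℂ) * (c : ℂ) = 1 := by
    rw [mul_comm, Complex.mul_conj, Complex.normSq_eq_norm_sq, Circle.norm_coe]; norm_num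
  have hs : star (c : ℂ) = conj (c : ℂ) := rfl
  constructor
  · rw [star_smul, smul_mul_smul_comm, Unitary.coe_star_mul_self, hs, hc, one_smul]
  · rw [star_smul, smul_mul_smul_comm, hs, mul_comm (c : ℂ), hc, one_smul]
    exact Unitary.mul_star_self_of_mem U.2

/-- The twist of a representation of `Γ` by a character of `C`. -/
noncomputable def twist (χ : C →* Circle) (π : Γ →* unitary (H →L[ℂ] H)) :
    Γ × C →* unitary (H →L[ℂ] H) where
  toFun g := ⟨(χ g.2 : ℂ) • (π g.1 : H →L[ℂ] H), smul_mem_unitary _ _⟩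
  map_one' := by
    apply Subtype.ext
    simp
  map_mul' g h := by
    apply Subtype.ext
    simp only [Prod.fst_mul, Prod.snd_mul, map_mul, Circle.coe_mul, Submonoid.coe_mul]
    rw [smul_mul_smul_comm]

theorem twist_coe (χ : C →* Circle) (π : Γ →* unitary (H →L[ℂ] H)) (g : Γ × C) :
    (twist χ π g : H →L[ℂ] H) = (χ g.2 : ℂ) • (π g.1 : H →L[ℂ] H) := rfl

end twist

section main

variable {α : Type} [DecidableEq α] {C : Type} [Group C]

/-- The functional with function `χ(k) (5/13)^|γ|` on `F × C`. -/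
noncomputable def theta (α : Type) [DecidableEq α] (χ : C →* Circle) :
    WeakDual ℂ (FullCStar (FreeGroup α × C)) :=
  StrongDual.toWeakDual (coeffFunctional (twist χ (haagerupRep α)) (delOne (FreeGroup α))
    (delOne (FreeGroup α)))

theorem toFunction_theta (χ : C →* Circle) (g : FreeGroup α × C) :
    toFunction (theta α χ) g = (χ g.2 : ℂ) * (5 / 13 : ℂ) ^ len g.1 := by
  have h : toFunction (theta α χ) g = coeffFunctional (twist χ (haagerupRep α))
    (delOne (FreeGroup α)) (delOne (FreeGroup α)) (delta g) := rfl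
  rw [h, coeffFunctional_delta, twist_coe, smul_apply, inner_smul_right,
    haagerup_coeff]

theorem memℓp_theta [Fintype α] [Finite C] (χ : C →* Circle)
    (h : (2 * Fintype.card α : ℝ) * (5 / 13 : ℝ) ^ 4 < 1) :
    Memℓp (toFunction (theta α χ)) 4 := by
  have h4 : (0 : ℝ) < (4 : ℝ≥0∞).toReal := by norm_num
  rw [memℓp_gen_iff h4]
  have e4 : (4 : ℝ≥0∞).toReal = ((4 : ℕ) : ℝ) := by norm_num
  have h1 : ∀ g : FreeGroup α × C, ‖toFunction (theta α χ) g‖ ^ (4 : ℝ≥0∞).toReal =
      ((5 / 13 : ℝ) ^ 4) ^ len g.1 := by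
    intro g
    rw [e4, Real.rpow_natCast, toFunction_theta, norm_mul, norm_pow, Circle.norm_coe, one_mul]
    have : ‖(5 / 13 : ℂ)‖ = 5 / 13 := by
      rw [norm_div]; norm_num
    rw [this, ← pow_mul, ← pow_mul, mul_comm]
  simp only [h1]
  rw [summable_prod_of_nonneg (fun g => by positivity)]
  have := Fintype.ofFinite C
  constructor
  · intro x
    exact (hasSum_fintype _).summable
  · simp only [tsum_fintype, Finset.sum_const, nsmul_eq_mul]
    exact (summable_freeGroup_pow (by positivity) h).mul_left _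

/-- The sum of all letters in the group algebra. -/
noncomputable def letterSum (α C : Type) [Fintype α] [Group C] :
    MonoidAlgebra ℂ (FreeGroup α × C) :=
  ∑ l : α × Bool, MonoidAlgebra.single (aelt C l) 1

omit [DecidableEq α] in
theorem repAlg_letterSum [Fintype α] {H : Type} [NormedAddCommGroup H] [InnerProductSpace ℂ H]
    [CompleteSpace H] (π : FreeGroup α × C →* unitary (H →L[ℂ] H)) :
    repAlg π (letterSum α C) = ∑ l : α × Bool, (π (aelt C l) : H →L[ℂ] H) := by
  unfold letterSum
  rw [map_sum]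
  refine Finset.sum_congr rfl fun l _ => ?_
  rw [repAlg_eq, MonoidAlgebra.coeff_single, integrated_single, one_smul]

omit [DecidableEq α] in
theorem isSelfAdjoint_letterSum [Fintype α] {H : Type} [NormedAddCommGroup H]
    [InnerProductSpace ℂ H]
    [CompleteSpace H] (π : FreeGroup α × C →* unitary (H →L[ℂ] H)) :
    IsSelfAdjoint (repAlg π (letterSum α C)) := by
  rw [repAlg_letterSum, IsSelfAdjoint, star_sum]
  refine Finset.sum_bijective linv ⟨?_, ?_⟩ (by simp) (fun l _ => ?_)
  · intro a b h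
    rw [← linv_linv a, ← linv_linv b, h]
  · intro a
    exact ⟨linv a, linv_linv a⟩
  · rw [aelt_linv, map_inv]
    rfl

theorem re_inner_theta [Fintype α] (χ : C →* Circle) :
    (inner ℂ (delOne (FreeGroup α)) (repAlg (twist χ (haagerupRep α)) (letterSum α C)
      (delOne (FreeGroup α)))).re = (2 * Fintype.card α) * (5 / 13) := by
  rw [repAlg_letterSum, sum_apply, inner_sum]
  have h : ∀ l : α × Bool, inner ℂ (delOne (FreeGroup α))
      ((twist χ (haagerupRep α) (aelt C l) : L2 (FreeGroup α) →L[ℂ] L2 (FreeGroup α))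
        (delOne (FreeGroup α))) = (5 / 13 : ℂ) := by
    intro l
    rw [twist_coe, smul_apply, inner_smul_right]
    have h1 : (aelt C l).2 = (1 : C) := rfl
    have h2 : (aelt C l).1 = letter l := rfl
    rw [h1, h2, haagerup_coeff, map_one]
    unfold len
    rw [toWord_letter]
    simp
  simp only [h, Finset.sum_const, Finset.card_univ, Fintype.card_prod, Fintype.card_bool,
    nsmul_eq_mul]
  have : ((((Fintype.card α * 2 : ℕ) : ℂ)) * (5 / 13 : ℂ)) =
      (((2 * Fintype.card α) * (5 / 13) : ℝ) : ℂ) := by push_cast; ring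
  rw [this, Complex.ofReal_re]

end main

/-- The character of the cyclic group of order three. -/
noncomputable def chi : Multiplicative (ZMod 3) →* Circle := (ZMod.toCircle (N := 3)).toMonoidHom

theorem chi_cube : (chi (Multiplicative.ofAdd 1) : ℂ) ^ 3 = 1 := by
  have h : chi (Multiplicative.ofAdd 1) ^ 3 = 1 := by
    rw [← map_pow]
    have : (Multiplicative.ofAdd (1 : ZMod 3)) ^ 3 = 1 := by decide
    rw [this, map_one]
  have := congrArg (fun c : Circle => (c : ℂ)) h
  simpa using this

theorem chi_ne_one : (chi (Multiplicative.ofAdd 1) : ℂ) ≠ 1 := by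
  intro h
  have h1 : chi (Multiplicative.ofAdd 1) = 1 := by
    apply Circle.ext
    rw [h]; rfl
  have h2 : ZMod.toCircle (1 : ZMod 3) = ZMod.toCircle (0 : ZMod 3) := by
    rw [AddChar.map_zero_eq_one]
    exact h1
  have := ZMod.injective_toCircle h2
  exact absurd this (by decide)

theorem chi_sum : 1 + (chi (Multiplicative.ofAdd 1) : ℂ) +
    (chi (Multiplicative.ofAdd 1) : ℂ) ^ 2 = 0 := by
  have h : ((chi (Multiplicative.ofAdd 1) : ℂ) - 1) * (1 + (chi (Multiplicative.ofAdd 1) : ℂ) +
    (chi (Multiplicative.ofAdd 1) : ℂ) ^ 2) = 0 := by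
    have := chi_cube
    ring_nf
    ring_nf at this
    rw [this]; ring
  exact (mul_eq_zero.mp h).resolve_left (sub_ne_zero.mpr chi_ne_one)

/-- **Main theorem.** -/
theorem main : ∃ B : Subalgebra ℂ (FreeGroup (Fin 18) × Multiplicative (ZMod 3) → ℂ),
    (B : Set (FreeGroup (Fin 18) × Multiplicative (ZMod 3) → ℂ)) ⊆
      FourierStieltjes (FreeGroup (Fin 18) × Multiplicative (ZMod 3)) ∧
    IsWeakStarClosed (B : Set (FreeGroup (Fin 18) × Multiplicative (ZMod 3) → ℂ)) ∧
    IsTranslationInvariant (B : Set (FreeGroup (Fin 18) × Multiplicative (ZMod 3) → ℂ)) ∧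
    ∃ f ∈ B, (fun g => conj (f g)) ∉ B := by
  obtain ⟨x, hx1, hx2⟩ := exists_separating_element
    (letterSum (Fin 18) (Multiplicative (ZMod 3)))
    (fun H _ _ _ π => isSelfAdjoint_letterSum π)
    (regRep (FreeGroup (Fin 18) × Multiplicative (ZMod 3))) 12 (by
      intro v
      rw [repAlg_letterSum]
      have h := re_inner_sum_le (α := Fin 18) (C := Multiplicative (ZMod 3))
        (t := 6) (by norm_num) v
      rw [Fintype.card_fin] at h
      have h6 : (6 : ℝ) + (2 * ((18 : ℕ) : ℝ)) * 6⁻¹ = 12 := by norm_num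
      rw [h6] at h
      exact h)
  refine abstract_counterexample ((1, Multiplicative.ofAdd 1) :
      FreeGroup (Fin 18) × Multiplicative (ZMod 3)) ?_ (chi (Multiplicative.ofAdd 1) : ℂ) chi_sum x
    ?_ (theta (Fin 18) chi) (theta (Fin 18) chi⁻¹) ?_ ?_ ?_ ?_
  · rintro ⟨a, b⟩
    rw [Prod.mk_mul_mk, Prod.mk_mul_mk, one_mul, mul_one, mul_comm]
  · intro φ hφ
    obtain ⟨a, b, hab⟩ := exists_coeff_regRep φ hφ
    have : WeakDual.toStrongDual φ x = 0 := by rw [hab]; exact hx1 a b
    exact this
  · apply memℓp_theta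
    rw [Fintype.card_fin]
    norm_num
  · rintro ⟨a, b⟩
    rw [toFunction_theta, toFunction_theta]
    simp only [Prod.mk_mul_mk, one_mul, map_mul, Circle.coe_mul]
    ring
  · rintro ⟨a, b⟩
    rw [toFunction_theta, toFunction_theta, map_mul, map_pow]
    have h1 : conj (5 / 13 : ℂ) = 5 / 13 := by
      rw [map_div₀, map_ofNat, map_ofNat]
    rw [h1]
    congr 1
    rw [MonoidHom.inv_apply, Circle.coe_inv_eq_conj]
  · apply hx2
    rw [norm_delOne, re_inner_theta, Fintype.card_fin]
    norm_num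

end Pool.Agent.Lib.MP_f0f681_an
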